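import Pool.Agent.Lib.MP_fb8c36_co.Gadget

/-!
# The base case `n = 5` (the heptagon, 42 triangulations)
-/

namespace Pool.Agent.MPfb8c36

namespace BT

/-- Boolean equality of trees -/
def beqT : BT → BT → Bool
  | leaf, leaf => true
  | node a b, node c d => beqT a c && beqT b d
  | _, _ => false

theorem beqT_eq : ∀ {s t : BT}, beqT s t = true → s = t
  | leaf, leaf, _ => rfl
  | leaf, node _ _, h => by simp [beqT] at h
  | node _ _, leaf, h => by simp [beqT] at h
  | node a b, node c d, h => by
      simp only [beqT, Bool.and_eq_true] at h
      rw [beqT_eq h.1, beqT_eq h.2]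

theorem beqT_self : ∀ (s : BT), beqT s s = true
  | leaf => rfl
  | node a b => by simp [beqT, beqT_self a, beqT_self b]

/-- Boolean version of the root rotation -/
def baseb : BT → BT → Bool
  | node (node a b) c, node a' (node b' c') => beqT a a' && (beqT b b' && beqT c c')
  | _, _ => false

/-- Boolean version of `Rot` -/
def rotb : BT → BT → Bool
  | node l r, node l' r' =>
      baseb (node l r) (node l' r') || ((beqT l l' && rotb r r') || (beqT r r' && rotb l l'))
  | _, _ => false

theorem baseb_rot {s t : BT} (h : baseb s t = true) : Rot s t := by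
  match s, t, h with
  | node (node a b) c, node a' (node b' c'), h =>
    simp only [baseb, Bool.and_eq_true] at h
    rw [beqT_eq h.1, beqT_eq h.2.1, beqT_eq h.2.2]
    exact Rot.base _ _ _

theorem rotb_rot : ∀ {s t : BT}, rotb s t = true → Rot s t
  | leaf, _, h => by simp [rotb] at h
  | node _ _, leaf, h => by simp [rotb] at h
  | node l r, node l' r', h => by
      simp only [rotb, Bool.or_eq_true, Bool.and_eq_true] at h
      rcases h with h | ⟨h1, h2⟩ | ⟨h1, h2⟩
      · exact baseb_rot h
      · rw [beqT_eq h1]; exact Rot.right _ (rotb_rot h2)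
      · rw [beqT_eq h1]; exact Rot.left _ (rotb_rot h2)

/-- Boolean adjacency -/
def adjb (s t : BT) : Bool := rotb s t || rotb t s

theorem adjb_adj {s t : BT} (h : adjb s t = true) : Adj s t := by
  simp only [adjb, Bool.or_eq_true] at h
  exact h.imp rotb_rot rotb_rot

/-- Boolean duplicate freeness -/
def nodupb : List BT → Bool
  | [] => true
  | a :: l => !(l.any (beqT a)) && nodupb l

theorem nodupb_nodup : ∀ {l : List BT}, nodupb l = true → l.Nodup
  | [], _ => List.nodup_nil
  | a :: l, h => by
      simp only [nodupb, Bool.and_eq_true, Bool.not_eq_true', List.any_eq_false] at h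
      refine List.nodup_cons.2 ⟨?_, nodupb_nodup h.2⟩
      intro ha
      exact h.1 a ha (beqT_self a)

/-- Boolean chains -/
def chainb : List BT → Bool
  | a :: b :: l => adjb a b && chainb (b :: l)
  | _ => true

theorem chainb_chain : ∀ {l : List BT}, chainb l = true → l.IsChain Adj
  | [], _ => List.isChain_nil
  | [a], _ => List.isChain_singleton a
  | a :: b :: l, h => by
      simp only [chainb, Bool.and_eq_true] at h
      exact List.isChain_cons_cons.2 ⟨adjb_adj h.1, chainb_chain h.2⟩

/-- Boolean closing condition -/
def closeb (p : List BT) : Bool :=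
  match p.head?, p.getLast? with
  | some a, some z => adjb z a
  | _, _ => false

theorem closeb_close {p : List BT} (h : closeb p = true) :
    ∀ z ∈ p.getLast?, ∀ a ∈ p.head?, Adj z a := by
  intro z hz a ha
  rw [Option.mem_def] at hz ha
  rw [closeb, hz, ha] at h
  exact adjb_adj h

/-- a Hamilton cycle for trees of size five -/
def H5 : List BT := [node (node leaf (node leaf (node leaf (node leaf leaf)))) leaf,
  node leaf (node (node leaf (node leaf (node leaf leaf))) leaf),
  node leaf (node leaf (node (node leaf (node leaf leaf)) leaf)),
  node leaf (node leaf (node leaf (node (node leaf leaf) leaf))),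
  node leaf (node (node leaf leaf) (node (node leaf leaf) leaf)),
  node leaf (node (node (node leaf leaf) (node leaf leaf)) leaf),
  node (node leaf (node (node leaf leaf) (node leaf leaf))) leaf,
  node (node leaf (node (node (node leaf leaf) leaf) leaf)) leaf,
  node leaf (node (node (node (node leaf leaf) leaf) leaf) leaf),
  node leaf (node (node (node leaf leaf) leaf) (node leaf leaf)),
  node leaf (node (node leaf leaf) (node leaf (node leaf leaf))),
  node leaf (node leaf (node leaf (node leaf (node leaf leaf)))),
  node (node leaf leaf) (node leaf (node leaf (node leaf leaf))),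
  node (node leaf leaf) (node leaf (node (node leaf leaf) leaf)),
  node (node leaf leaf) (node (node leaf (node leaf leaf)) leaf),
  node (node (node leaf leaf) (node leaf (node leaf leaf))) leaf,
  node (node (node (node leaf leaf) leaf) (node leaf leaf)) leaf,
  node (node (node leaf (node leaf leaf)) (node leaf leaf)) leaf,
  node (node leaf (node leaf leaf)) (node (node leaf leaf) leaf),
  node (node (node leaf leaf) leaf) (node (node leaf leaf) leaf),
  node (node (node leaf leaf) leaf) (node leaf (node leaf leaf)),
  node (node leaf (node leaf leaf)) (node leaf (node leaf leaf)),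
  node (node (node leaf (node leaf leaf)) leaf) (node leaf leaf),
  node (node (node (node leaf (node leaf leaf)) leaf) leaf) leaf,
  node (node (node leaf (node (node leaf leaf) leaf)) leaf) leaf,
  node (node leaf (node (node leaf leaf) leaf)) (node leaf leaf),
  node (node leaf (node leaf (node leaf leaf))) (node leaf leaf),
  node (node (node leaf (node leaf (node leaf leaf))) leaf) leaf,
  node (node leaf (node (node leaf (node leaf leaf)) leaf)) leaf,
  node leaf (node (node (node leaf (node leaf leaf)) leaf) leaf),
  node leaf (node (node leaf (node leaf leaf)) (node leaf leaf)),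
  node leaf (node leaf (node (node leaf leaf) (node leaf leaf))),
  node (node leaf leaf) (node (node leaf leaf) (node leaf leaf)),
  node (node (node leaf leaf) (node leaf leaf)) (node leaf leaf),
  node (node (node (node leaf leaf) leaf) leaf) (node leaf leaf),
  node (node (node (node (node leaf leaf) leaf) leaf) leaf) leaf,
  node (node (node (node leaf leaf) (node leaf leaf)) leaf) leaf,
  node (node (node leaf leaf) (node (node leaf leaf) leaf)) leaf,
  node (node leaf leaf) (node (node (node leaf leaf) leaf) leaf),
  node leaf (node leaf (node (node (node leaf leaf) leaf) leaf)),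
  node leaf (node (node leaf (node (node leaf leaf) leaf)) leaf),
  node (node leaf (node leaf (node (node leaf leaf) leaf))) leaf]

/-- the start of a subpath of `H5` with `L` vertices that closes up to a cycle -/
def st5 : ℕ → ℕ
  | 4 => 5
  | 5 => 1
  | 6 => 39
  | 7 => 0
  | 8 => 26
  | 9 => 3
  | 10 => 27
  | 11 => 3
  | 12 => 6
  | 13 => 2
  | 14 => 28
  | 15 => 4
  | 16 => 0
  | 17 => 9
  | 18 => 7
  | 19 => 38
  | 20 => 16
  | 21 => 11
  | 22 => 7
  | 23 => 15
  | 24 => 35
  | 25 => 14
  | 26 => 24
  | 27 => 25
  | 28 => 15
  | 29 => 18
  | 30 => 41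
  | 31 => 14
  | 32 => 17
  | 33 => 13
  | 34 => 36
  | 35 => 11
  | 36 => 33
  | 37 => 6
  | 38 => 2
  | 39 => 5
  | 40 => 1
  | _ => 0

/-- the rotated and truncated Hamilton cycle -/
def sub5 (L : ℕ) : List BT := (H5.drop (st5 L) ++ H5.take (st5 L)).take L

/-- a cycle of length 41 -/
def cyc41 : List BT := (H5.drop 9).take 16 ++ ((H5.take 8).reverse ++ (H5.drop 25).reverse)

theorem H5_cyc : IsCyc H5 :=
  ⟨nodupb_nodup (by decide +kernel), by decide +kernel, chainb_chain (by decide +kernel),
    closeb_close (by decide +kernel)⟩

theorem cyc41_cyc : IsCyc cyc41 :=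
  ⟨nodupb_nodup (by decide +kernel), by decide +kernel, chainb_chain (by decide +kernel),
    closeb_close (by decide +kernel)⟩

/-- all trees of a given size -/
def allT : ℕ → List BT
  | 0 => [leaf]
  | n + 1 => (allT n).flatMap (fun t => up t (spine t))

theorem mem_allT : ∀ (n : ℕ) (x : BT), size x = n → x ∈ allT n
  | 0, leaf, _ => by simp [allT]
  | 0, node _ _, h => by simp [size] at h
  | n + 1, x, h => by
      have hne : x ≠ leaf := by
        rintro rfl
        simp [size] at h
      have hp := size_par hne
      rw [allT, List.mem_flatMap]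
      exact ⟨par x, mem_allT n _ (by omega), up_full (par x) x hne (by simp)⟩

theorem H5_mem (x : BT) : x ∈ H5 ↔ size x = 5 := by
  constructor
  · intro hx
    have h : H5.all (fun x => size x == 5) = true := by decide +kernel
    rw [List.all_eq_true] at h
    simpa using h x hx
  · intro hx
    have h : (allT 5).all (fun x => H5.any (beqT x)) = true := by decide +kernel
    rw [List.all_eq_true] at h
    have h2 := h x (mem_allT 5 x hx)
    rw [List.any_eq_true] at h2
    obtain ⟨y, hy, hxy⟩ := h2
    rw [beqT_eq hxy]
    exact hy

theorem sub5_close : ∀ L < 41, 4 ≤ L → closeb (sub5 L) = true := by decide +kernel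

theorem IsCyc.take {p : List BT} (h : IsCyc p) {L : ℕ} (hL : 3 ≤ L) (hLp : L ≤ p.length)
    (hc : closeb (p.take L) = true) : IsCyc (p.take L) :=
  ⟨h.nodup.sublist (List.take_sublist L p), by rw [List.length_take]; omega,
    h.chain.take L, closeb_close hc⟩

theorem CL5 (L : ℕ) (h4 : 4 ≤ L) (h42 : L ≤ 42) : CL 5 L := by
  have hlen : H5.length = 42 := by decide +kernel
  by_cases h42' : L = 42
  · exact ⟨H5, H5_cyc, by rw [h42', hlen], fun x hx => (H5_mem x).1 hx⟩
  by_cases h41 : L = 41
  · refine ⟨cyc41, cyc41_cyc, by rw [h41]; decide +kernel, fun x hx => (H5_mem x).1 ?_⟩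
    simp only [cyc41, List.mem_append, List.mem_reverse] at hx
    rcases hx with hx | hx | hx
    · exact List.mem_of_mem_drop (List.mem_of_mem_take hx)
    · exact List.mem_of_mem_take hx
    · exact List.mem_of_mem_drop hx
  · have hrot : IsCyc (H5.drop (st5 L) ++ H5.take (st5 L)) := by
      have h := H5_cyc
      rw [← List.take_append_drop (st5 L) H5] at h
      exact h.rotate
    have hlr : (H5.drop (st5 L) ++ H5.take (st5 L)).length = 42 := by
      rw [List.length_append, List.length_drop, List.length_take, hlen]
      omega
    refine ⟨sub5 L, hrot.take (by omega) (by omega) (sub5_close L (by omega) h4), ?_, ?_⟩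
    · rw [sub5, List.length_take, hlr]
      omega
    · intro x hx
      rw [sub5] at hx
      have hx' := List.mem_of_mem_take hx
      rw [← H5_mem]
      rcases List.mem_append.1 hx' with h | h
      · exact List.mem_of_mem_drop h
      · exact List.mem_of_mem_take h

end BT

end Pool.Agent.MPfb8c36
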