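import Pool.Agent.Lib.MP_fb8c36_co.Polygon

/-!
# The cycle spectrum of the flip graph: all lengths `4, …, |T_N|`
-/

namespace Pool.Agent.MPfb8c36

open BT Filter Topology

theorem exists_walk {V : Type*} {G : SimpleGraph V} : ∀ (l : List V) (a z : V),
    (a :: l).IsChain G.Adj → (a :: l).getLast? = some z →
    ∃ w : G.Walk a z, w.support = a :: l
  | [], a, z, _, hz => by
      simp only [List.getLast?_singleton, Option.some.injEq] at hz
      subst hz
      exact ⟨SimpleGraph.Walk.nil, rfl⟩
  | b :: l, a, z, hch, hz => by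
      have hab : G.Adj a b := (List.isChain_cons_cons.1 hch).1
      have hch' : (b :: l).IsChain G.Adj := (List.isChain_cons_cons.1 hch).2
      rw [List.getLast?_cons_cons] at hz
      obtain ⟨w, hw⟩ := exists_walk l b z hch' hz
      exact ⟨SimpleGraph.Walk.cons hab w, by rw [SimpleGraph.Walk.support_cons, hw]⟩

theorem cycle_of_list {V : Type*} {G : SimpleGraph V} {a b c z : V} {l : List V}
    (hch : (a :: b :: c :: l).IsChain G.Adj) (hnd : (a :: b :: c :: l).Nodup)
    (hz : (c :: l).getLast? = some z) (hclose : G.Adj z a) :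
    ∃ (v : V) (w : G.Walk v v), w.IsCycle ∧ w.length = l.length + 3 := by
  have hab : G.Adj a b := (List.isChain_cons_cons.1 hch).1
  have hch' : (b :: c :: l).IsChain G.Adj := (List.isChain_cons_cons.1 hch).2
  obtain ⟨w, hw⟩ := exists_walk (c :: l) b z hch' (by rw [List.getLast?_cons_cons, hz])
  have hzmem : z ∈ c :: l := List.mem_of_getLast? hz
  refine ⟨_, SimpleGraph.Walk.cons hclose (SimpleGraph.Walk.cons hab w), ?_, ?_⟩
  · rw [SimpleGraph.Walk.cons_isCycle_iff]
    constructor
    · rw [SimpleGraph.Walk.isPath_def, SimpleGraph.Walk.support_cons, hw]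
      exact hnd
    · rw [SimpleGraph.Walk.edges_cons]
      intro hmem
      rcases List.mem_cons.1 hmem with h | h
      · rw [Sym2.eq_iff] at h
        rcases h with h | h
        · exact (List.nodup_cons.1 hnd).1 (h.1 ▸ List.mem_cons_of_mem _ hzmem)
        · exact (List.nodup_cons.1 (List.nodup_cons.1 hnd).2).1 (h.1 ▸ hzmem)
      · have h1 := SimpleGraph.Walk.snd_mem_support_of_mem_edges _ h
        rw [hw] at h1
        exact (List.nodup_cons.1 hnd).1 h1
  · have h1 := w.length_support
    rw [hw] at h1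
    simp only [List.length_cons] at h1
    rw [SimpleGraph.Walk.length_cons, SimpleGraph.Walk.length_cons]
    omega

theorem mem_spectrum {n L : ℕ} (hn : 1 ≤ n) (h : CL n L) : L ∈ cycleSpectrum (n + 2) := by
  obtain ⟨p, hp, hl, hs⟩ := h
  obtain ⟨p', rfl⟩ : ∃ p' : List {t : BT // size t = n}, p'.map Subtype.val = p :=
    ⟨p.pmap Subtype.mk hs, by simp [List.map_pmap]⟩
  have hch : (p'.map (toTri hn)).IsChain (flipGraph (n + 2)).Adj := by
    have h := hp.chain
    rw [List.isChain_map] at h ⊢
    exact h.imp fun a b hab => hab.flipAdj hn a.2 b.2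
  have hnd : (p'.map (toTri hn)).Nodup :=
    List.Nodup.map (toTri_bijective hn).1 (List.Nodup.of_map _ hp.nodup)
  have hlen := hp.len
  have hclose := hp.close
  match p', hl, hlen, hch, hnd, hclose with
  | a :: b :: c :: l, hl, _, hch, hnd, hclose =>
    obtain ⟨z, hz⟩ : ∃ z, (c :: l).getLast? = some z :=
      ⟨_, List.getLast?_eq_some_getLast (by simp)⟩
    have h2 := hclose z.1 (by
      rw [Option.mem_def, List.getLast?_map, List.getLast?_cons_cons, List.getLast?_cons_cons, hz]
      rfl) a.1 (by simp)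
    obtain ⟨v, w, hw, hwl⟩ := cycle_of_list (G := flipGraph (n + 2)) (a := toTri hn a)
      (b := toTri hn b) (c := toTri hn c) (z := toTri hn z) (l := l.map (toTri hn)) hch hnd
      (by
        have h3 : toTri hn c :: l.map (toTri hn) = (c :: l).map (toTri hn) := rfl
        rw [h3, List.getLast?_map, hz]
        rfl)
      (h2.flipAdj hn z.2 a.2)
    refine ⟨v, w, hw, ?_⟩
    rw [hwl, ← hl]
    simp

theorem cross_comm {p q : ℕ × ℕ} : Cross p q ↔ Cross q p := by
  simp only [Cross]
  tauto

theorem not_cross_self (p : ℕ × ℕ) : ¬ Cross p p := by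
  simp [Cross]

theorem NonCrossing.insert' {N : ℕ} {S : Finset (ℕ × ℕ)} (h : NonCrossing N S) {q : ℕ × ℕ}
    (hq : IsDiag N q) (hc : ∀ s ∈ S, ¬ Cross q s) : NonCrossing N (insert q S) := by
  constructor
  · intro p hp
    rcases Finset.mem_insert.1 hp with hp | hp
    · rw [hp]; exact hq
    · exact h.1 p hp
  · intro p hp r hr
    rcases Finset.mem_insert.1 hp with hp | hp
    · rcases Finset.mem_insert.1 hr with hr | hr
      · rw [hp, hr]; exact not_cross_self _
      · rw [hp]; exact hc r hr
    · rcases Finset.mem_insert.1 hr with hr | hr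
      · rw [hr, cross_comm]; exact hc p hp
      · exact h.2 p hp r hr

theorem mem_of_maximal {N : ℕ} {S : Finset (ℕ × ℕ)} (h : Maximal (NonCrossing N) S) {q : ℕ × ℕ}
    (hq : IsDiag N q) (hc : ∀ s ∈ S, ¬ Cross q s) : q ∈ S :=
  h.2 (h.1.insert' hq hc) (Finset.subset_insert _ _) (Finset.mem_insert_self _ _)

theorem cross_of_two {N : ℕ} {W : Finset (ℕ × ℕ)} {p q : ℕ × ℕ}
    (hp : Maximal (NonCrossing N) (insert p W)) (hq : Maximal (NonCrossing N) (insert q W))
    (hpq : p ≠ q) (hqW : q ∉ W) : Cross p q := by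
  by_contra hcon
  have h1 : q ∈ insert p W := by
    refine mem_of_maximal hp (hq.1.1 q (Finset.mem_insert_self _ _)) ?_
    intro s hs
    rcases Finset.mem_insert.1 hs with rfl | hs
    · rw [cross_comm]; exact hcon
    · exact hq.1.2 q (Finset.mem_insert_self _ _) s (Finset.mem_insert_of_mem hs)
  rcases Finset.mem_insert.1 h1 with h | h
  · exact hpq h.symm
  · exact hqW h

theorem three_sorted {N : ℕ} {W : Finset (ℕ × ℕ)} {p q r : ℕ × ℕ}
    (hp : Maximal (NonCrossing N) (insert p W)) (hq : Maximal (NonCrossing N) (insert q W))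
    (hr : Maximal (NonCrossing N) (insert r W))
    (h1 : Cross p q) (h2 : Cross q r) (h3 : Cross p r) (hpq : p.1 < q.1) (hqr : q.1 < r.1) :
    False := by
  have dp := hp.1.1 p (Finset.mem_insert_self _ _)
  have dr := hr.1.1 r (Finset.mem_insert_self _ _)
  have he : (p.1, r.1) ∈ insert p W := by
    refine mem_of_maximal hp ?_ ?_
    · simp only [IsDiag] at dp dr ⊢
      omega
    · intro s hs
      rcases Finset.mem_insert.1 hs with rfl | hs
      · simp only [Cross] at h3 ⊢
        omega
      · have c1 := hp.1.2 p (Finset.mem_insert_self _ _) s (Finset.mem_insert_of_mem hs)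
        have c3 := hr.1.2 r (Finset.mem_insert_self _ _) s (Finset.mem_insert_of_mem hs)
        simp only [Cross] at h1 h2 h3 c1 c3 ⊢
        omega
  rcases Finset.mem_insert.1 he with h | h
  · have h4 := congrArg Prod.snd h
    simp only [Cross] at h1 h2 h3 h4
    omega
  · have c := hq.1.2 q (Finset.mem_insert_self _ _) _ (Finset.mem_insert_of_mem h)
    simp only [Cross] at h1 h2 h3 c
    omega

theorem not_three {N : ℕ} {W : Finset (ℕ × ℕ)} {p q r : ℕ × ℕ}
    (hp : Maximal (NonCrossing N) (insert p W)) (hq : Maximal (NonCrossing N) (insert q W))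
    (hr : Maximal (NonCrossing N) (insert r W)) (hpq : p ≠ q) (hqr : q ≠ r) (hpr : p ≠ r)
    (hqW : q ∉ W) (hrW : r ∉ W) : False := by
  have c1 := cross_of_two hp hq hpq hqW
  have c2 := cross_of_two hq hr hqr hrW
  have c3 := cross_of_two hp hr hpr hrW
  have c1' := cross_comm.1 c1
  have c2' := cross_comm.1 c2
  have c3' := cross_comm.1 c3
  have n1 : p.1 ≠ q.1 := by
    simp only [Cross] at c1
    omega
  have n2 : q.1 ≠ r.1 := by
    simp only [Cross] at c2
    omega
  have n3 : p.1 ≠ r.1 := by
    simp only [Cross] at c3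
    omega
  rcases lt_or_gt_of_ne n1 with h1 | h1 <;> rcases lt_or_gt_of_ne n2 with h2 | h2 <;>
    rcases lt_or_gt_of_ne n3 with h3 | h3
  · exact three_sorted hp hq hr c1 c2 c3 h1 h2
  · omega
  · exact three_sorted hp hr hq c3 c2' c1 h3 h2
  · exact three_sorted hr hp hq c3' c1 c2' h3 h1
  · exact three_sorted hq hp hr c1' c3 c2 h1 h3
  · exact three_sorted hq hr hp c2 c3' c1' h2 h3
  · omega
  · exact three_sorted hr hq hp c2' c1' c3' h2 h1

theorem no_triangle {N : ℕ} {S T U : Triangulation N} (h1 : (flipGraph N).Adj S T)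
    (h2 : (flipGraph N).Adj T U) (h3 : (flipGraph N).Adj S U) : False := by
  have hTU := h2.ne
  obtain ⟨p, hp, q, hq, hT⟩ := h1
  obtain ⟨p', hp', q', hq', hU⟩ := h3
  obtain ⟨a, ha, b, hb, hab⟩ := h2
  have hpq : p ≠ q := by
    rintro rfl
    exact hq hp
  by_cases hpp : p = p'
  · subst hpp
    have hqq : q ≠ q' := by
      rintro rfl
      exact hTU (Subtype.ext (hT.trans hU.symm))
    have hpq' : p ≠ q' := by
      rintro rfl
      exact hq' hp
    refine not_three (N := N) (W := S.1.erase p) (p := p) (q := q) (r := q') ?_ ?_ ?_ hpq hqq hpq' ?_ ?_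
    · rw [Finset.insert_erase hp]; exact S.2
    · rw [← hT]; exact T.2
    · rw [← hU]; exact U.2
    · exact fun h => hq (Finset.mem_of_mem_erase h)
    · exact fun h => hq' (Finset.mem_of_mem_erase h)
  · have hp'T : p' ∈ T.1 := by
      rw [hT]
      exact Finset.mem_insert_of_mem (Finset.mem_erase.2 ⟨fun h => hpp h.symm, hp'⟩)
    have hpU : p ∈ U.1 := by
      rw [hU]
      exact Finset.mem_insert_of_mem (Finset.mem_erase.2 ⟨hpp, hp⟩)
    have hp'U : p' ∉ U.1 := by
      rw [hU, Finset.mem_insert, Finset.mem_erase]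
      rintro (h | h)
      · rw [h] at hp'
        exact hq' hp'
      · exact h.1 rfl
    have hap : p' = a := by
      by_contra hne
      apply hp'U
      rw [hab]
      exact Finset.mem_insert_of_mem (Finset.mem_erase.2 ⟨hne, hp'T⟩)
    have hqT : q ∈ T.1 := by
      rw [hT]; exact Finset.mem_insert_self _ _
    have hqU : q ∈ U.1 := by
      rw [hab]
      refine Finset.mem_insert_of_mem (Finset.mem_erase.2 ⟨?_, hqT⟩)
      rintro rfl
      rw [hap] at hp'
      exact hq hp'
    apply hq
    refine mem_of_maximal S.2 (T.2.1.1 q hqT) ?_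
    intro s hs
    by_cases hsp : s = p
    · rw [hsp]
      exact U.2.1.2 q hqU p hpU
    · refine T.2.1.2 q hqT s ?_
      rw [hT]
      exact Finset.mem_insert_of_mem (Finset.mem_erase.2 ⟨hsp, hs⟩)

theorem card_triangulation {n : ℕ} (hn : 1 ≤ n) {l : List BT} (hnd : l.Nodup)
    (hl : ∀ x, x ∈ l ↔ size x = n) :
    Finite (Triangulation (n + 2)) ∧ Nat.card (Triangulation (n + 2)) = l.length := by
  have hset : {t : BT | size t = n} = (l.toFinset : Set BT) := by
    ext x
    simp [hl]
  have hfin : Finite {t : BT // size t = n} := by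
    have : Set.Finite {t : BT | size t = n} := by
      rw [hset]; exact Finset.finite_toSet _
    exact this
  refine ⟨Finite.of_surjective _ (toTri_bijective hn).2, ?_⟩
  rw [← Nat.card_eq_of_bijective _ (toTri_bijective hn)]
  have h1 : Nat.card {t : BT // size t = n} = Set.ncard {t : BT | size t = n} := rfl
  rw [h1, hset, Set.ncard_coe_finset, List.toFinset_card_of_nodup hnd]

theorem spectrum_eq (N : ℕ) (hN : 7 ≤ N) :
    Finite (Triangulation N) ∧ N - 2 ≤ Nat.card (Triangulation N) ∧
    cycleSpectrum N = Set.Icc 4 (Nat.card (Triangulation N)) := by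
  obtain ⟨n, rfl⟩ : ∃ n, N = n + 2 := ⟨N - 2, by omega⟩
  obtain ⟨l, hnd, hl, hnl, hC⟩ := BT.spectrum n (by omega)
  have hn : 1 ≤ n := by omega
  obtain ⟨hfin, hcard⟩ := card_triangulation hn hnd hl
  refine ⟨hfin, by omega, ?_⟩
  ext L
  constructor
  · rintro ⟨v, w, hw, hwl⟩
    have h3 : 3 ≤ L := hwl ▸ hw.three_le_length
    rw [Set.mem_Icc]
    constructor
    · by_contra hlt
      have hL : w.length = 3 := by omega
      have a0 := w.adj_getVert_succ (i := 0) (by omega)
      have a1 := w.adj_getVert_succ (i := 1) (by omega)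
      have a2 := w.adj_getVert_succ (i := 2) (by omega)
      have e3 : w.getVert (2 + 1) = v := by
        rw [show 2 + 1 = w.length by omega, w.getVert_length]
      rw [e3] at a2
      rw [w.getVert_zero] at a0
      exact no_triangle a0 a1 a2.symm
    · have hnd := hw.support_nodup
      have := hfin
      have := Fintype.ofFinite (Triangulation (n + 2))
      have := hnd.length_le_card
      rw [List.length_tail, SimpleGraph.Walk.length_support, Nat.add_sub_cancel, hwl] at this
      rwa [Nat.card_eq_fintype_card]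
  · rintro ⟨h1, h2⟩
    exact mem_spectrum hn (hC L h1 (by omega))

theorem ratio_tendsto :
    Tendsto (fun N : ℕ => ((cycleSpectrum N).ncard : ℝ) / (Nat.card (Triangulation N) : ℝ))
      atTop (𝓝 1) := by
  have hcard : Tendsto (fun N : ℕ => (Nat.card (Triangulation N) : ℝ)) atTop atTop := by
    rw [tendsto_natCast_atTop_iff]
    have h2 : Tendsto (fun N : ℕ => N - 2) atTop atTop := tendsto_sub_atTop_nat 2
    refine tendsto_atTop_mono' atTop ?_ h2
    filter_upwards [eventually_ge_atTop 7] with N hN
    exact (spectrum_eq N hN).2.1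
  have hlim : Tendsto (fun N : ℕ => 1 - 3 / (Nat.card (Triangulation N) : ℝ)) atTop (𝓝 (1 - 0)) :=
    tendsto_const_nhds.sub (hcard.const_div_atTop 3)
  rw [sub_zero] at hlim
  refine hlim.congr' ?_
  filter_upwards [eventually_ge_atTop 7] with N hN
  obtain ⟨-, h1, h2⟩ := spectrum_eq N hN
  rw [h2, ← Finset.coe_Icc, Set.ncard_coe_finset, Nat.card_Icc]
  have hpos : (0 : ℝ) < (Nat.card (Triangulation N) : ℝ) := by
    have : 0 < Nat.card (Triangulation N) := by omega
    exact_mod_cast this
  have h3 : ((Nat.card (Triangulation N) + 1 - 4 : ℕ) : ℝ) =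
      (Nat.card (Triangulation N) : ℝ) - 3 := by
    rw [Nat.cast_sub (by omega)]
    push_cast
    ring
  rw [h3, sub_div, div_self hpos.ne']

end Pool.Agent.MPfb8c36
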