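import Pool.Agent.Lib.MP_fb8c36_co.Paths

/-!
# The gadgets
-/

namespace Pool.Agent.MPfb8c36

namespace BT

theorem cross_low : ∀ (X : BT) (k i : ℕ), k + 1 ≤ spine X → i ≤ k →
    Adj (E (E X k) i) (E (E X (k + 1)) i)
  | X, k, 0, hk, _ => (cr_zero (adj_E_succ X k hk)).2.2
  | leaf, k, i + 1, hk, _ => by simp [spine] at hk
  | node l r, 0, i + 1, _, hi => by omega
  | node l r, k + 1, i + 1, hk, hi => by
      have hk' : k + 1 ≤ spine r := by simpa [spine] using hk
      simp only [E_node_succ]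
      exact (cross_low r k i hk' (by omega)).right l

theorem cross_high : ∀ (X : BT) (k : ℕ), k + 1 ≤ spine X →
    Adj (E (E X k) (k + 1)) (E (E X (k + 1)) (k + 2))
  | leaf, k, hk => by simp [spine] at hk
  | node l r, 0, _ => by
      simp only [E_zero, E_node_succ]
      exact Or.inl (Rot.base l r (node leaf leaf))
  | node l r, k + 1, hk => by
      have hk' : k + 1 ≤ spine r := by simpa [spine] using hk
      simp only [E_node_succ]
      exact (cross_high r k hk').right l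

theorem cross_one : ∀ (X : BT) (k : ℕ), k + 2 ≤ spine X →
    Adj (E (E X (k + 1)) 1) (E (E X (k + 2)) 1)
  | leaf, k, hk => by simp [spine] at hk
  | node l r, k, hk => by
      have hk' : k + 1 ≤ spine r := by simpa [spine] using hk
      simp only [E_node_succ, E_zero]
      exact ((adj_E_succ r k hk').left leaf).right l

/-- the vertices of the gadget -/
def G (X : BT) (q : ℕ × ℕ) : BT := E (E X q.1) q.2

/-- adjacency of positions in the gadget -/
def sadj (p q : ℕ × ℕ) : Bool :=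
  (p.1 == q.1 && (p.2 + 1 == q.2 || q.2 + 1 == p.2)) ||
  ((p.1 + 1 == q.1 && ((p.2 == q.2 && p.2 ≤ p.1) || (p.2 == p.1 + 1 && q.2 == p.1 + 2))) ||
  (q.1 + 1 == p.1 && ((q.2 == p.2 && q.2 ≤ q.1) || (q.2 == q.1 + 1 && p.2 == q.1 + 2))))

theorem adj_G {X : BT} {p q : ℕ × ℕ} (hp1 : p.1 ≤ spine X) (hp2 : p.2 ≤ p.1 + 1)
    (hq1 : q.1 ≤ spine X) (hq2 : q.2 ≤ q.1 + 1) (h : sadj p q = true) :
    Adj (G X p) (G X q) := by
  obtain ⟨k, i⟩ := p
  obtain ⟨k', i'⟩ := q
  simp only at hp1 hp2 hq1 hq2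
  simp only [sadj, Bool.or_eq_true, Bool.and_eq_true, beq_iff_eq, decide_eq_true_eq] at h
  simp only [G]
  rcases h with ⟨h1, h2 | h2⟩ | ⟨h1, ⟨h2, h3⟩ | ⟨h2, h3⟩⟩ | ⟨h1, ⟨h2, h3⟩ | ⟨h2, h3⟩⟩
  · subst h1; subst h2
    exact adj_E_succ _ _ (by rw [spine_E X k hp1]; exact hq2)
  · subst h1; subst h2
    exact (adj_E_succ _ _ (by rw [spine_E X k hp1]; exact hp2)).symm
  · subst h1; subst h2
    exact cross_low X k i hq1 h3
  · subst h1; subst h2; subst h3
    exact cross_high X k hq1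
  · subst h1; subst h2
    exact (cross_low X k' _ hp1 h3).symm
  · subst h1; subst h2; subst h3
    exact (cross_high X k' hp1).symm

theorem G_inj {X : BT} {p q : ℕ × ℕ} (hp1 : p.1 ≤ spine X) (hp2 : p.2 ≤ p.1 + 1)
    (hq1 : q.1 ≤ spine X) (hq2 : q.2 ≤ q.1 + 1) (h : G X p = G X q) : p = q := by
  have hp3 : p.2 ≤ spine (E X p.1) := by rw [spine_E X _ hp1]; exact hp2
  have hq3 : q.2 ≤ spine (E X q.1) := by rw [spine_E X _ hq1]; exact hq2
  have h1 := congrArg par h
  simp only [G] at h1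
  rw [par_E _ _ hp3, par_E _ _ hq3] at h1
  have h2 := E_inj hp1 hq1 h1
  obtain ⟨k, i⟩ := p
  obtain ⟨k', i'⟩ := q
  simp only at h2
  subst h2
  simp only [G] at h
  simp only at hp3 hq3
  rw [E_inj hp3 hq3 h]

/-- a checkable path in the first `w` columns of the gadget -/
def okPath (w : ℕ) (c : List (ℕ × ℕ)) : Bool :=
  c.all (fun q => decide (q.1 < w) && decide (q.2 ≤ q.1 + 1)) && decide c.Nodup &&
    decide (c.IsChain (fun p q => sadj p q = true))

theorem gadget_pth {X : BT} {w : ℕ} (hX : w ≤ spine X + 1) {c : List (ℕ × ℕ)}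
    (h : okPath w c = true) {a z : ℕ × ℕ} (ha : c.head? = some a) (hz : c.getLast? = some z) :
    Pth ((List.range w).map (E X)) (G X a) (G X z) (c.map (G X)) := by
  simp only [okPath, Bool.and_eq_true, List.all_eq_true, decide_eq_true_eq] at h
  obtain ⟨⟨h1, h2⟩, h3⟩ := h
  refine ⟨?_, ?_, ?_, ?_, ?_⟩
  · rw [List.isChain_map]
    refine List.IsChain.imp_of_mem_imp ?_ h3
    intro p q hp hq hpq
    exact adj_G (by have := (h1 p hp).1; omega) (h1 p hp).2 (by have := (h1 q hq).1; omega)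
      (h1 q hq).2 hpq
  · refine List.Nodup.map_on ?_ h2
    intro p hp q hq hpq
    exact G_inj (by have := (h1 p hp).1; omega) (h1 p hp).2 (by have := (h1 q hq).1; omega)
      (h1 q hq).2 hpq
  · rw [List.head?_map, ha]; rfl
  · rw [List.getLast?_map, hz]; rfl
  · intro x hx
    obtain ⟨p, hp, rfl⟩ := List.mem_map.1 hx
    have h4 : p.1 ≤ spine X := by have := (h1 p hp).1; omega
    have h5 : p.2 ≤ spine (E X p.1) := by rw [spine_E X _ h4]; exact (h1 p hp).2
    refine ⟨E_ne_leaf _ _ h5, ?_⟩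
    rw [G, par_E _ _ h5]
    exact List.mem_map.2 ⟨p.1, List.mem_range.2 (h1 p hp).1, rfl⟩

theorem gadget_full {X : BT} {w : ℕ} (hX : w ≤ spine X + 1) {c : List (ℕ × ℕ)}
    (h : ∀ k < w, ∀ i < k + 2, (k, i) ∈ c) : Full ((List.range w).map (E X)) (c.map (G X)) := by
  intro x hx hp
  obtain ⟨k, hk, he⟩ := List.mem_map.1 hp
  have hk' := List.mem_range.1 hk
  obtain ⟨i, hi, hx'⟩ := eq_E x hx
  rw [← he] at hi hx'
  rw [spine_E X k (by omega)] at hi
  rw [hx']
  exact List.mem_map.2 ⟨(k, i), h k hk' i (by omega), rfl⟩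

/-- three column gadget paths -/
def g3 : ℕ → List (ℕ × ℕ)
  | 5 => [(0,0),(1,0),(1,1),(2,1),(2,0)]
  | 6 => [(0,0),(0,1),(1,2),(1,1),(1,0),(2,0)]
  | 7 => [(0,0),(0,1),(1,2),(2,3),(2,2),(2,1),(2,0)]
  | 8 => [(0,0),(1,0),(1,1),(1,2),(2,3),(2,2),(2,1),(2,0)]
  | _ => [(0,0),(0,1),(1,2),(2,3),(2,2),(2,1),(1,1),(1,0),(2,0)]

/-- four column gadget paths -/
def g4 : ℕ → List (ℕ × ℕ)
  | 6 => [(0,0),(1,0),(1,1),(2,1),(3,1),(3,0)]
  | 7 => [(0,0),(0,1),(1,2),(1,1),(1,0),(2,0),(3,0)]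
  | 8 => [(0,0),(0,1),(1,2),(2,3),(2,2),(3,2),(3,1),(3,0)]
  | 9 => [(0,0),(0,1),(1,2),(1,1),(1,0),(2,0),(2,1),(3,1),(3,0)]
  | 10 => [(0,0),(0,1),(1,2),(2,3),(2,2),(3,2),(3,1),(2,1),(2,0),(3,0)]
  | 11 => [(0,0),(0,1),(1,2),(1,1),(1,0),(2,0),(2,1),(2,2),(3,2),(3,1),(3,0)]
  | 12 => [(0,0),(0,1),(1,2),(1,1),(2,1),(2,2),(2,3),(3,4),(3,3),(3,2),(3,1),(3,0)]
  | 13 => [(0,0),(0,1),(1,2),(2,3),(3,4),(3,3),(3,2),(3,1),(2,1),(1,1),(1,0),(2,0),(3,0)]
  | _ => [(0,0),(0,1),(1,2),(1,1),(1,0),(2,0),(2,1),(2,2),(2,3),(3,4),(3,3),(3,2),(3,1),(3,0)]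

/-- the properties of a table of gadget paths -/
def GoodTable (v lo hi : ℕ) (g : ℕ → List (ℕ × ℕ)) : Prop :=
  ∀ x, lo ≤ x → x ≤ hi → okPath (v + 1) (g x) = true ∧ (g x).length = x ∧
    (g x).head? = some (0, 0) ∧ (g x).getLast? = some (v, 0)

theorem g3_good : GoodTable 2 5 9 g3 := by
  intro x h1 h2
  interval_cases x <;> decide

theorem g4_good : GoodTable 3 6 14 g4 := by
  intro x h1 h2
  interval_cases x <;> decide

theorem g3_full : ∀ k < 3, ∀ i < k + 2, (k, i) ∈ g3 9 := by decide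

theorem g4_full : ∀ k < 4, ∀ i < k + 2, (k, i) ∈ g4 14 := by decide

/-- cyclic lists -/
structure IsCyc (p : List BT) : Prop where
  nodup : p.Nodup
  len : 3 ≤ p.length
  chain : p.IsChain Adj
  close : ∀ z ∈ p.getLast?, ∀ a ∈ p.head?, Adj z a

theorem IsCyc.rotate {A B : List BT} (h : IsCyc (A ++ B)) : IsCyc (B ++ A) := by
  obtain ⟨h1, h2, h3, h4⟩ := h
  rcases A with _ | ⟨a, A⟩
  · simp only [List.append_nil]
    exact ⟨h1, h2, h3, h4⟩
  rcases B with _ | ⟨b, B⟩
  · simp only [List.nil_append]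
    simp only [List.append_nil] at h1 h2 h3 h4
    exact ⟨h1, h2, h3, h4⟩
  rw [List.isChain_append] at h3
  refine ⟨?_, ?_, ?_, ?_⟩
  · exact (List.perm_append_comm.nodup_iff).1 h1
  · simp only [List.length_append] at h2 ⊢
    omega
  · refine List.isChain_append.2 ⟨h3.2.1, h3.1, ?_⟩
    intro x hx y hy
    refine h4 x ?_ y ?_
    · rw [List.getLast?_append]
      rw [Option.mem_def] at hx
      rw [hx]
      rfl
    · rw [List.head?_append]
      rw [Option.mem_def] at hy
      rw [hy]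
      rfl
  · intro z hz c hc
    refine h3.2.2 z ?_ c ?_
    · rw [List.getLast?_append] at hz
      cases hA : (a :: A).getLast? with
      | none => simp at hA
      | some w =>
        rw [hA] at hz
        exact hz
    · rw [List.head?_append] at hc
      exact hc

theorem Pth.isCyc {R : List BT} {a b : BT} {p : List BT} (h : Pth R a b p) (hab : Adj b a)
    (hl : 3 ≤ p.length) : IsCyc p := by
  refine ⟨h.nodup, hl, h.chain, ?_⟩
  intro z hz c hc
  rw [h.last] at hz
  rw [h.head] at hc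
  obtain rfl := Option.mem_some_iff.1 hz
  obtain rfl := Option.mem_some_iff.1 hc
  exact hab

/-- the rotation graph on trees of size `n` contains a cycle of length `L` -/
def CL (n L : ℕ) : Prop := ∃ p, IsCyc p ∧ p.length = L ∧ ∀ x ∈ p, size x = n

/-- a cycle of length `L` which can be lengthened by two at the next level -/
def Sp (n L : ℕ) : Prop := ∃ t t' p, IsCyc (t :: t' :: p) ∧ (t :: t' :: p).length = L ∧
  (∀ x ∈ t :: t' :: p, size x = n) ∧ Adj (E t 1) (E t' 1) ∧ 1 ≤ spine t ∧ 1 ≤ spine t'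

theorem Pth.size_eq {R : List BT} {a b : BT} {p : List BT} (h : Pth R a b p) {n : ℕ}
    (hR : ∀ x ∈ R, size x = n) : ∀ x ∈ p, size x = n + 1 := by
  intro x hx
  rw [size_par (h.mem x hx).1, hR _ (h.mem x hx).2]

theorem combine {X : BT} {R : List BT} {v lo hi : ℕ} {g : ℕ → List (ℕ × ℕ)} {n k : ℕ}
    (hX : v ≤ spine X) (hg : GoodTable v lo hi g) (hlo : 1 ≤ lo) (hlh : lo + 2 ≤ hi)
    (hch : ((List.range (v + 1)).map (E X) ++ R).IsChain Adj)
    (hnd : ((List.range (v + 1)).map (E X) ++ R).Nodup)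
    (hsz : ∀ x ∈ (List.range (v + 1)).map (E X) ++ R, size x = n)
    (hlen : R.length = 2 * (k + 1))
    {r z : BT} (hr : R.head? = some r) (hz : R.getLast? = some z) (hzX : Adj z (E X 0)) :
    ∃ M F, F.length = M ∧ Full R F ∧ (∃ q, F = up r (spine r) ++ q) ∧
      (∀ x, lo ≤ x → x ≤ hi → IsCyc ((g x).map (G X) ++ F) ∧
        ∀ y ∈ (g x).map (G X) ++ F, size y = n + 1) ∧
      ∀ L, lo + R.length ≤ L → L ≤ hi + M → CL (n + 1) L := by
  obtain ⟨hch1, hch2, hch3⟩ := List.isChain_append.1 hch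
  obtain ⟨hnd1, hnd2, hnd3⟩ := List.nodup_append'.1 hnd
  have hvr : Adj (E X v) r := by
    refine hch3 _ ?_ _ hr
    simp [List.range_succ]
  obtain ⟨M, q, hq1, hq2, hq3, hq4⟩ := lift_even k R hlen hch2 hnd2 r z hr hz
  have key : ∀ x, lo ≤ x → x ≤ hi → ∀ p, Pth R (E r 0) (E z 0) p →
      IsCyc ((g x).map (G X) ++ p) ∧ ∀ y ∈ (g x).map (G X) ++ p, size y = n + 1 := by
    intro x hx1 hx2 p hp
    obtain ⟨h1, h2, h3, h4⟩ := hg x hx1 hx2
    have hP := (gadget_pth (X := X) (by omega) h1 h3 h4).append hp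
      (cr_zero hvr).2.2 hnd3
    refine ⟨hP.isCyc (cr_zero hzX).2.2 ?_, hP.size_eq hsz⟩
    have hpl : 2 ≤ p.length := by
      have hne : E r 0 ≠ E z 0 := by
        intro h
        have hrz : r = z := by
          have := congrArg par h
          rwa [par_E _ _ (Nat.zero_le _), par_E _ _ (Nat.zero_le _)] at this
        subst hrz
        match R, hlen, hr, hz, hnd2 with
        | c :: d :: R', _, hr, hz, hnd2 =>
          simp only [List.head?_cons, Option.some.injEq] at hr
          subst hr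
          have : c ∈ d :: R' := by
            refine List.mem_of_getLast? ?_
            simpa using hz
          exact (List.nodup_cons.1 hnd2).1 this
      have h5 := hp.head
      have h6 := hp.last
      match p, h5, h6 with
      | [c], h5, h6 =>
        simp only [List.head?_cons, Option.some.injEq] at h5
        simp only [List.getLast?_singleton, Option.some.injEq] at h6
        exact absurd (h5.symm.trans h6) hne
      | c :: d :: p', _, _ => simp
    simp only [List.length_append, List.length_map, h2]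
    omega
  refine ⟨M, _, hq3, hq2, ⟨q, rfl⟩, fun x hx1 hx2 => key x hx1 hx2 _ hq1, ?_⟩
  intro L hL1 hL2
  by_cases hLM : L ≤ lo + M
  · obtain ⟨p, hp1, hp2, hp3⟩ := hq4 (L - lo) (by omega) (by omega)
    have h1 : lo ≤ L - p.length := by omega
    have h2 : L - p.length ≤ hi := by omega
    obtain ⟨hc, hs⟩ := key _ h1 h2 p hp1
    refine ⟨_, hc, ?_, hs⟩
    rw [List.length_append, List.length_map, (hg _ h1 h2).2.1]
    omega
  · have h1 : lo ≤ L - M := by omega
    have h2 : L - M ≤ hi := by omega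
    obtain ⟨hc, hs⟩ := key _ h1 h2 _ hq1
    refine ⟨_, hc, ?_, hs⟩
    rw [List.length_append, List.length_map, (hg _ h1 h2).2.1, hq3]
    omega

/-- the induction invariant: a Hamilton cycle of the rotation graph of size `n` that starts with
four siblings -/
structure Inv (n : ℕ) (X : BT) (H : List BT) : Prop where
  hsp : 3 ≤ spine X
  cyc : IsCyc ([E X 0, E X 1, E X 2, E X 3] ++ H)
  mem : ∀ x, x ∈ [E X 0, E X 1, E X 2, E X 3] ++ H ↔ size x = n
  len : 2 ≤ H.length

theorem mem_of_full {n : ℕ} {X : BT} {H : List BT} (hI : Inv n X H) {P : List BT}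
    (hP : Full ([E X 0, E X 1, E X 2, E X 3] ++ H) P) {x : BT} (hx : size x = n + 1) :
    x ∈ P := by
  have hne : x ≠ leaf := by
    rintro rfl
    simp [size] at hx
  refine hP x hne ?_
  rw [hI.mem]
  have := size_par hne
  omega

theorem Inv.step_even {n : ℕ} {X : BT} {H : List BT} (hI : Inv n X H) {k : ℕ}
    (hk : H.length = 2 * (k + 1)) :
    ∃ X' H', Inv (n + 1) X' H' ∧
      (∀ L, ([E X 0, E X 1, E X 2, E X 3] ++ H).length + 2 ≤ L →
        L ≤ ([E X' 0, E X' 1, E X' 2, E X' 3] ++ H').length → CL (n + 1) L) ∧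
      Sp (n + 1) (([E X' 0, E X' 1, E X' 2, E X' 3] ++ H').length - 1) := by
  have hspine := hI.hsp
  have hcols : (List.range (3 + 1)).map (E X) = [E X 0, E X 1, E X 2, E X 3] := rfl
  have hHne : H ≠ [] := by
    rintro rfl
    simp at hk
  obtain ⟨r, hr⟩ : ∃ r, H.head? = some r := ⟨H.head hHne, List.head?_eq_some_head hHne⟩
  obtain ⟨z, hz⟩ : ∃ z, H.getLast? = some z := ⟨H.getLast hHne, List.getLast?_eq_some_getLast hHne⟩
  have hzX : Adj z (E X 0) := by
    refine hI.cyc.close z ?_ (E X 0) (by simp)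
    rw [List.getLast?_append, hz]; rfl
  obtain ⟨M, F, h1, h2, -, h3, h4⟩ := combine (X := X) (R := H) (n := n) hI.hsp g4_good
    (by norm_num) (by norm_num) (by rw [hcols]; exact hI.cyc.chain)
    (by rw [hcols]; exact hI.cyc.nodup)
    (by intro x hx; rw [hcols] at hx; exact (hI.mem x).1 hx) hk hr hz hzX
  have hfull : Full ([E X 0, E X 1, E X 2, E X 3] ++ H) ((g4 14).map (G X) ++ F) := by
    rw [← hcols]
    exact (gadget_full (by omega) g4_full).append h2
  obtain ⟨hc14, hs14⟩ := h3 14 (by norm_num) (by norm_num)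
  obtain ⟨hc13, hs13⟩ := h3 13 (by norm_num) (by norm_num)
  have hsplit14 : (g4 14).map (G X) ++ F =
      [G X (0,0), G X (0,1), G X (1,2), G X (1,1), G X (1,0)] ++
      ([E (E X 2) 0, E (E X 2) 1, E (E X 2) 2, E (E X 2) 3] ++
        ([G X (3,4), G X (3,3), G X (3,2), G X (3,1), G X (3,0)] ++ F)) := rfl
  have hsplit13 : (g4 13).map (G X) ++ F =
      [G X (0,0), G X (0,1), G X (1,2), G X (2,3)] ++
      ([G X (3,4), G X (3,3), G X (3,2), G X (3,1), G X (2,1), G X (1,1), G X (1,0),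
        G X (2,0), G X (3,0)] ++ F) := rfl
  have hlen14 : ((g4 14).map (G X) ++ F).length = 14 + M := by
    rw [List.length_append, List.length_map, h1]; rfl
  refine ⟨E X 2, [G X (3,4), G X (3,3), G X (3,2), G X (3,1), G X (3,0)] ++ F ++
    [G X (0,0), G X (0,1), G X (1,2), G X (1,1), G X (1,0)], ⟨?_, ?_, ?_, ?_⟩, ?_, ?_⟩
  · rw [spine_E X 2 (by omega)]
  · rw [hsplit14] at hc14
    have := hc14.rotate
    simpa only [List.append_assoc] using this
  · intro x
    have hperm : x ∈ [E (E X 2) 0, E (E X 2) 1, E (E X 2) 2, E (E X 2) 3] ++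
        ([G X (3,4), G X (3,3), G X (3,2), G X (3,1), G X (3,0)] ++ F ++
        [G X (0,0), G X (0,1), G X (1,2), G X (1,1), G X (1,0)]) ↔
        x ∈ (g4 14).map (G X) ++ F := by
      rw [hsplit14]
      simp only [List.mem_append]
      tauto
    rw [hperm]
    exact ⟨hs14 x, fun hx => mem_of_full hI hfull hx⟩
  · simp
  · intro L hL1 hL2
    refine h4 L ?_ ?_
    · simp only [List.length_append, List.length_cons, List.length_nil] at hL1
      omega
    · simp only [List.length_append, List.length_cons, List.length_nil] at hL2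
      omega
  · rw [hsplit13] at hc13
    have hrot := hc13.rotate
    refine ⟨G X (3,4), G X (3,3), [G X (3,2), G X (3,1), G X (2,1), G X (1,1), G X (1,0),
        G X (2,0), G X (3,0)] ++ F ++ [G X (0,0), G X (0,1), G X (1,2), G X (2,3)],
        ?_, ?_, ?_, ?_, ?_, ?_⟩
    · simpa only [List.append_assoc, List.cons_append, List.nil_append] using hrot
    · simp only [List.length_append, List.length_cons, List.length_nil]
      omega
    · intro x hx
      refine hs13 x ?_
      rw [hsplit13]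
      simp only [List.mem_append, List.mem_cons, List.cons_append] at hx ⊢
      tauto
    · exact (cross_one (E X 3) 2 (by rw [spine_E X 3 (by omega)])).symm
    · rw [G, spine_E _ _ (by rw [spine_E X 3 (by omega)])]
      norm_num
    · rw [G, spine_E _ _ (by rw [spine_E X 3 (by omega)]; norm_num)]
      norm_num

end BT

end Pool.Agent.MPfb8c36
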