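import Pool.Agent.Lib.MP_fb8c36_co.Trees

/-!
# Lifting chains of trees to the next level
-/

namespace Pool.Agent.MPfb8c36

namespace BT

/-- `p` is a path from `a` to `b` whose vertices are children of members of `R` -/
structure Pth (R : List BT) (a b : BT) (p : List BT) : Prop where
  chain : p.IsChain Adj
  nodup : p.Nodup
  head : p.head? = some a
  last : p.getLast? = some b
  mem : ∀ x ∈ p, x ≠ leaf ∧ par x ∈ R

/-- `p` contains all children of members of `R` -/
def Full (R p : List BT) : Prop := ∀ x, x ≠ leaf → par x ∈ R → x ∈ p

theorem Pth.append {R R' : List BT} {a b c d : BT} {p q : List BT}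
    (hp : Pth R a b p) (hq : Pth R' c d q) (hbc : Adj b c) (hd : List.Disjoint R R') :
    Pth (R ++ R') a d (p ++ q) := by
  refine ⟨?_, ?_, ?_, ?_, ?_⟩
  · refine List.isChain_append.2 ⟨hp.chain, hq.chain, ?_⟩
    intro x hx y hy
    rw [hp.last] at hx
    rw [hq.head] at hy
    obtain rfl := Option.mem_some_iff.1 hx
    obtain rfl := Option.mem_some_iff.1 hy
    exact hbc
  · refine List.nodup_append'.2 ⟨hp.nodup, hq.nodup, ?_⟩
    intro x hx hy
    exact hd (hp.mem x hx).2 (hq.mem x hy).2
  · rw [List.head?_append, hp.head]; rfl
  · rw [List.getLast?_append, hq.last]; rfl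
  · intro x hx
    rcases List.mem_append.1 hx with h | h
    · exact ⟨(hp.mem x h).1, List.mem_append_left _ (hp.mem x h).2⟩
    · exact ⟨(hq.mem x h).1, List.mem_append_right _ (hq.mem x h).2⟩

theorem Full.append {R R' p q : List BT} (hp : Full R p) (hq : Full R' q) :
    Full (R ++ R') (p ++ q) := by
  intro x hx hxR
  rcases List.mem_append.1 hxR with h | h
  · exact List.mem_append_left _ (hp x hx h)
  · exact List.mem_append_right _ (hq x hx h)

theorem Pth.reverse {R : List BT} {a b : BT} {p : List BT} (hp : Pth R a b p) :
    Pth R b a p.reverse := by
  refine ⟨?_, List.nodup_reverse.2 hp.nodup, ?_, ?_, ?_⟩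
  · rw [List.isChain_reverse]
    exact hp.chain.imp fun _ _ h => h.symm
  · rw [List.head?_reverse, hp.last]
  · rw [List.getLast?_reverse, hp.head]
  · intro x hx
    exact hp.mem x (List.mem_reverse.1 hx)

theorem Full.reverse {R p : List BT} (hp : Full R p) : Full R p.reverse :=
  fun x h1 h2 => List.mem_reverse.2 (hp x h1 h2)

/-- the first `k+1` children -/
def up (t : BT) (k : ℕ) : List BT := (List.range (k + 1)).map (E t)

@[simp] theorem length_up (t : BT) (k : ℕ) : (up t k).length = k + 1 := by simp [up]

theorem up_succ (t : BT) (k : ℕ) : up t (k + 1) = up t k ++ [E t (k + 1)] := by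
  simp [up, List.range_succ]

theorem up_pth (t : BT) : ∀ (k : ℕ), k ≤ spine t → Pth [t] (E t 0) (E t k) (up t k)
  | 0, _ => by
      refine ⟨?_, ?_, ?_, ?_, ?_⟩
      · simp [up]
      · simp [up]
      · simp [up]
      · simp [up]
      · intro x hx
        have hx' : x = E t 0 := by simpa [up] using hx
        subst hx'
        exact ⟨E_ne_leaf t 0 (Nat.zero_le _), by rw [par_E t 0 (Nat.zero_le _)]; simp⟩
  | k + 1, hk => by
      have ih := up_pth t k (by omega)
      rw [up_succ]
      refine ⟨?_, ?_, ?_, ?_, ?_⟩
      · refine List.isChain_append.2 ⟨ih.chain, by simp, ?_⟩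
        intro x hx y hy
        rw [ih.last] at hx
        obtain rfl := Option.mem_some_iff.1 hx
        simp only [List.head?_cons, Option.mem_def, Option.some.injEq] at hy
        subst hy
        exact adj_E_succ t k hk
      · refine List.nodup_append'.2 ⟨ih.nodup, by simp, ?_⟩
        intro x hx hy
        simp only [List.mem_singleton] at hy
        subst hy
        simp only [up, List.mem_map, List.mem_range] at hx
        obtain ⟨i, hi, he⟩ := hx
        have := E_inj (by omega) hk he
        omega
      · rw [List.head?_append, ih.head]; rfl
      · simp
      · intro x hx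
        rcases List.mem_append.1 hx with h | h
        · exact ih.mem x h
        · simp only [List.mem_singleton] at h
          subst h
          exact ⟨E_ne_leaf t _ hk, by rw [par_E t _ hk]; simp⟩

theorem up_full (t : BT) : Full [t] (up t (spine t)) := by
  intro x hx hp
  simp only [List.mem_singleton] at hp
  obtain ⟨i, hi, he⟩ := eq_E x hx
  rw [hp] at hi he
  rw [he]
  simp only [up, List.mem_map, List.mem_range]
  exact ⟨i, by omega, rfl⟩

theorem pair_pth {t t' : BT} (hne : t ≠ t') {i j : ℕ} (h : Cr t t' i j) :
    Pth [t, t'] (E t 0) (E t' 0) (up t i ++ (up t' j).reverse) := by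
  have := (up_pth t i h.1).append (up_pth t' j h.2.1).reverse h.2.2 (by
    intro x hx hy
    simp only [List.mem_singleton] at hx hy
    exact hne (hx ▸ hy ▸ rfl))
  simpa using this

/-- the lifting lemma for chains of even length -/
theorem lift_even : ∀ (k : ℕ) (R : List BT), R.length = 2 * (k + 1) → R.IsChain Adj → R.Nodup →
    ∀ a z, R.head? = some a → R.getLast? = some z →
    ∃ M q, Pth R (E a 0) (E z 0) (up a (spine a) ++ q) ∧ Full R (up a (spine a) ++ q) ∧
      (up a (spine a) ++ q).length = M ∧
      ∀ L, R.length ≤ L → L ≤ M → ∃ p, Pth R (E a 0) (E z 0) p ∧ p.length ≤ L ∧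
        L ≤ p.length + 2
  | 0, R, hlen, hch, hnd, a, z, ha, hz => by
      match R, hlen, hch, hnd, ha, hz with
      | [t, t'], _, hch, hnd, ha, hz =>
        simp only [List.head?_cons, Option.some.injEq] at ha
        simp only [List.getLast?_cons_cons, List.getLast?_singleton, Option.some.injEq] at hz
        subst ha
        subst hz
        have hadj : Adj t t' := by simpa using hch
        have hne : t ≠ t' := by simpa using hnd
        refine ⟨_, (up t' (spine t')).reverse, pair_pth hne hadj.cr_top, ?_, rfl, ?_⟩
        · exact (up_full t).append (up_full t').reverse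
        · intro L h1 h2
          simp only [List.length_cons, List.length_nil] at h1
          simp only [List.length_append, length_up, List.length_reverse] at h2
          obtain ⟨i, j, hc, h3, h4⟩ := hadj.exists_cr (L - 2) (by omega)
          refine ⟨_, pair_pth hne hc, ?_, ?_⟩
          · simp only [List.length_append, length_up, List.length_reverse]; omega
          · simp only [List.length_append, length_up, List.length_reverse]; omega
  | k + 1, R, hlen, hch, hnd, a, z, ha, hz => by
      match R, hlen, hch, hnd, ha, hz with
      | t :: t' :: c :: R', hlen, hch, hnd, ha, hz =>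
        simp only [List.head?_cons, Option.some.injEq] at ha
        subst ha
        have hadj : Adj t t' := by
          simp only [List.isChain_cons_cons] at hch
          exact hch.1
        have hadj2 : Adj t' c := by
          simp only [List.isChain_cons_cons] at hch
          exact hch.2.1
        have hch' : (c :: R').IsChain Adj := by
          simp only [List.isChain_cons_cons] at hch
          exact hch.2.2
        have hnd' : (c :: R').Nodup := by
          simp only [List.nodup_cons] at hnd ⊢
          exact hnd.2.2
        have hne : t ≠ t' := by
          rintro rfl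
          simp at hnd
        have hdis : List.Disjoint [t, t'] (c :: R') := by
          rw [show t :: t' :: c :: R' = [t, t'] ++ (c :: R') from rfl, List.nodup_append'] at hnd
          exact hnd.2.2
        have hlen' : (c :: R').length = 2 * (k + 1) := by
          simp only [List.length_cons] at hlen ⊢
          omega
        have hz' : (c :: R').getLast? = some z := by
          simpa using hz
        obtain ⟨M, q, hq1, hq2, hq3, hq4⟩ := lift_even k (c :: R') hlen' hch' hnd' c z rfl hz'
        have h0 := cr_zero hadj2
        refine ⟨_, (up t' (spine t')).reverse ++ (up c (spine c) ++ q), ?_, ?_, rfl, ?_⟩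
        · have := (pair_pth hne hadj.cr_top).append hq1 h0.2.2 hdis
          simpa using this
        · have := ((up_full t).append (up_full t').reverse).append hq2
          simpa using this
        · intro L h1 h2
          simp only [List.length_append, length_up, List.length_reverse, List.length_cons]
            at h1 h2 hq3
          simp only [List.length_cons] at hlen'
          by_cases hL : L ≤ 2 + M
          · obtain ⟨p, hp1, hp2, hp3⟩ := hq4 (L - 2) (by simp only [List.length_cons]; omega)
              (by omega)
            have := (pair_pth hne (cr_zero hadj)).append hp1 h0.2.2 hdis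
            refine ⟨_, by simpa using this, ?_, ?_⟩
            · simp only [List.length_append, length_up, List.length_reverse]
              omega
            · simp only [List.length_append, length_up, List.length_reverse]
              omega
          · obtain ⟨i, j, hc, h3, h4⟩ := hadj.exists_cr (L - M - 2) (by omega)
            have := (pair_pth hne hc).append hq1 h0.2.2 hdis
            refine ⟨_, by simpa using this, ?_, ?_⟩
            · simp only [List.length_append, length_up, List.length_reverse] at hq3 ⊢
              omega
            · simp only [List.length_append, length_up, List.length_reverse] at hq3 ⊢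
              omega

end BT

end Pool.Agent.MPfb8c36
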