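import Pool.Agent.Lib.MP_fb8c36_co.Spectrum

/-!
# Triangulations of a convex polygon and the flip graph
-/

namespace Pool.Agent.MPfb8c36

/-- `(x, y)` is a diagonal of the convex polygon with the vertices `0, 1, …, N-1` in this cyclic
order: `x < y` are not neighbours on the boundary. -/
def IsDiag (N : ℕ) (p : ℕ × ℕ) : Prop := p.1 + 2 ≤ p.2 ∧ p.2 < N ∧ ¬ (p.1 = 0 ∧ p.2 + 1 = N)

/-- Two diagonals `p.1 < p.2` and `q.1 < q.2` cross. -/
def Cross (p q : ℕ × ℕ) : Prop :=
  (p.1 < q.1 ∧ q.1 < p.2 ∧ p.2 < q.2) ∨ (q.1 < p.1 ∧ p.1 < q.2 ∧ q.2 < p.2)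

/-- `S` is a set of pairwise non-crossing diagonals of the `N`-gon. -/
def NonCrossing (N : ℕ) (S : Finset (ℕ × ℕ)) : Prop :=
  (∀ p ∈ S, IsDiag N p) ∧ ∀ p ∈ S, ∀ q ∈ S, ¬ Cross p q

/-- The triangulations of the `N`-gon: maximal sets of pairwise non-crossing diagonals. -/
def Triangulation (N : ℕ) : Type := {S : Finset (ℕ × ℕ) // Maximal (NonCrossing N) S}

/-- The flip graph: two triangulations are adjacent when one arises from the other by removing one
diagonal and inserting another one. -/
def flipGraph (N : ℕ) : SimpleGraph (Triangulation N) where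
  Adj S T := ∃ p ∈ S.1, ∃ q ∉ S.1, T.1 = insert q (S.1.erase p)
  symm := ⟨by
    rintro S T ⟨p, hp, q, hq, h⟩
    have hpq : p ≠ q := by
      rintro rfl
      exact hq hp
    refine ⟨q, by rw [h]; exact Finset.mem_insert_self _ _, p, ?_, ?_⟩
    · rw [h]
      intro h1
      rcases Finset.mem_insert.1 h1 with h2 | h2
      · exact hpq h2
      · exact (Finset.mem_erase.1 h2).1 rfl
    · rw [h, Finset.erase_insert, Finset.insert_erase hp]
      intro h1
      exact hq (Finset.mem_erase.1 h1).2⟩
  loopless := ⟨by
    rintro S ⟨p, hp, q, hq, h⟩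
    apply hq
    rw [h]
    exact Finset.mem_insert_self _ _⟩

/-- The cycle spectrum of the flip graph: the set of all cycle lengths. -/
def cycleSpectrum (N : ℕ) : Set ℕ :=
  {L | ∃ (v : Triangulation N) (w : (flipGraph N).Walk v v), w.IsCycle ∧ w.length = L}

namespace BT

/-- the diagonals (and the base edge) of the triangulated polygon `i, …, i + size t + 1`
belonging to the tree `t` -/
def D : BT → ℕ → Finset (ℕ × ℕ)
  | leaf, _ => ∅
  | node l r, i => insert (i, i + size l + size r + 2) (D l i ∪ D r (i + size l + 1))

theorem mem_D_node {l r : BT} {i : ℕ} {p : ℕ × ℕ} :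
    p ∈ D (node l r) i ↔ p = (i, i + size l + size r + 2) ∨ p ∈ D l i ∨
      p ∈ D r (i + size l + 1) := by
  simp [D]

theorem D_bounds : ∀ (t : BT) (i : ℕ) (p : ℕ × ℕ), p ∈ D t i →
    i ≤ p.1 ∧ p.1 + 2 ≤ p.2 ∧ p.2 ≤ i + size t + 1
  | leaf, _, _, h => by simp [D] at h
  | node l r, i, p, h => by
      rcases mem_D_node.1 h with rfl | h | h
      · simp only [size]; omega
      · have := D_bounds l i p h
        simp only [size]; omega
      · have := D_bounds r _ p h
        simp only [size]; omega

theorem D_root {l r : BT} {i : ℕ} : (i, i + size (node l r) + 1) ∈ D (node l r) i := by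
  rw [mem_D_node]
  left
  simp only [size, Prod.mk.injEq, true_and]
  omega

theorem D_noncross : ∀ (t : BT) (i : ℕ) (p q : ℕ × ℕ), p ∈ D t i → q ∈ D t i → ¬ Cross p q
  | leaf, _, _, _, h, _ => by simp [D] at h
  | node l r, i, p, q, hp, hq => by
      have bp := D_bounds _ _ _ hp
      have bq := D_bounds _ _ _ hq
      simp only [size] at bp bq
      rcases mem_D_node.1 hp with rfl | hp | hp
      · simp only [Cross] at *
        omega
      · rcases mem_D_node.1 hq with rfl | hq | hq
        · simp only [Cross] at *
          omega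
        · exact D_noncross l i p q hp hq
        · have b1 := D_bounds _ _ _ hp
          have b2 := D_bounds _ _ _ hq
          simp only [Cross]
          omega
      · rcases mem_D_node.1 hq with rfl | hq | hq
        · simp only [Cross] at *
          omega
        · have b1 := D_bounds _ _ _ hp
          have b2 := D_bounds _ _ _ hq
          simp only [Cross]
          omega
        · exact D_noncross r _ p q hp hq

theorem card_D : ∀ (t : BT) (i : ℕ), (D t i).card = size t
  | leaf, _ => by simp [D, size]
  | node l r, i => by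
      rw [D, Finset.card_insert_of_notMem, Finset.card_union_of_disjoint, card_D l, card_D r, size]
      · rw [Finset.disjoint_left]
        intro p h1 h2
        have b1 := D_bounds _ _ _ h1
        have b2 := D_bounds _ _ _ h2
        omega
      · intro h
        rcases Finset.mem_union.1 h with h | h
        · have b1 := D_bounds _ _ _ h
          simp only at b1
          omega
        · have b1 := D_bounds _ _ _ h
          simp only at b1
          omega

/-- every non-crossing set is contained in a tree set -/
theorem D_covers : ∀ (n a : ℕ) (M : Finset (ℕ × ℕ)),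
    (∀ p ∈ M, a ≤ p.1 ∧ p.1 + 2 ≤ p.2 ∧ p.2 ≤ a + n + 1) →
    (∀ p ∈ M, ∀ q ∈ M, ¬ Cross p q) → ∃ t, size t = n ∧ M ⊆ D t a := by
  intro n
  induction n using Nat.strong_induction_on with
  | _ n ih =>
    intro a M hM hc
    rcases Nat.eq_zero_or_pos n with rfl | hn
    · refine ⟨leaf, rfl, ?_⟩
      intro p hp
      have := hM p hp
      omega
    classical
    set P : ℕ → Prop := fun k => (a, k) ∈ M ∨ k = a + 1 with hP
    set k := Nat.findGreatest P (a + n) with hk
    have hPk : P k := Nat.findGreatest_spec (P := P) (m := a + 1) (by omega) (Or.inr rfl)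
    have hk1 : a + 1 ≤ k := Nat.le_findGreatest (P := P) (by omega) (Or.inr rfl)
    have hk2 : k ≤ a + n := Nat.findGreatest_le _
    have hk3 : ∀ j, k < j → j ≤ a + n → (a, j) ∉ M := by
      intro j h1 h2 h3
      exact Nat.findGreatest_is_greatest (P := P) h1 h2 (Or.inl h3)
    have hsplit : ∀ p ∈ M, p = (a, a + n + 1) ∨ p.2 ≤ k ∨ k ≤ p.1 := by
      rintro ⟨x, y⟩ hp
      have hb := hM _ hp
      simp only at hb ⊢
      by_contra hcon
      push Not at hcon
      obtain ⟨h1, h2, h3⟩ := hcon
      by_cases hx : x = a
      · subst hx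
        have : y ≤ x + n := by
          by_contra h
          apply h1
          rw [Prod.mk.injEq]
          exact ⟨rfl, by omega⟩
        exact hk3 y h2 this hp
      · rcases hPk with h | h
        · have := hc _ h _ hp
          apply this
          left
          simp only
          omega
        · omega
    obtain ⟨l, hl, hlM⟩ := ih (k - a - 1) (by omega) a (M.filter (fun p => p.2 ≤ k))
      (by
        intro p hp
        rw [Finset.mem_filter] at hp
        have := hM p hp.1
        omega)
      (by
        intro p hp q hq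
        exact hc p (Finset.mem_filter.1 hp).1 q (Finset.mem_filter.1 hq).1)
    obtain ⟨r, hr, hrM⟩ := ih (a + n - k) (by omega) k (M.filter (fun p => k ≤ p.1))
      (by
        intro p hp
        rw [Finset.mem_filter] at hp
        have := hM p hp.1
        omega)
      (by
        intro p hp q hq
        exact hc p (Finset.mem_filter.1 hp).1 q (Finset.mem_filter.1 hq).1)
    refine ⟨node l r, by simp only [size]; omega, ?_⟩
    intro p hp
    rw [mem_D_node]
    rcases hsplit p hp with h | h | h
    · left
      rw [h, Prod.mk.injEq]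
      exact ⟨rfl, by omega⟩
    · right; left
      exact hlM (Finset.mem_filter.2 ⟨hp, h⟩)
    · right; right
      have : a + size l + 1 = k := by omega
      rw [this]
      exact hrM (Finset.mem_filter.2 ⟨hp, h⟩)

theorem size_le_of_D_eq {l r l' r' : BT} {i : ℕ}
    (hs : size (node l r) = size (node l' r')) (h : D (node l' r') i ⊆ D (node l r) i) :
    size l' ≤ size l := by
  by_contra hlt
  push Not at hlt
  have hne : l' ≠ leaf := by
    rintro rfl
    simp [size] at hlt
  obtain ⟨a, b, rfl⟩ : ∃ a b, l' = node a b := by
    cases l' with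
    | leaf => exact absurd rfl hne
    | node a b => exact ⟨a, b, rfl⟩
  have h1 := h (mem_D_node.2 (Or.inr (Or.inl (D_root (l := a) (r := b) (i := i)))))
  simp only [size] at hs hlt
  rcases mem_D_node.1 h1 with h2 | h2 | h2
  · rw [Prod.mk.injEq] at h2
    simp only [size] at h2
    omega
  · have := D_bounds _ _ _ h2
    simp only [size] at this
    omega
  · have := D_bounds _ _ _ h2
    simp only [size] at this
    omega

theorem D_left_eq {l r : BT} {i : ℕ} :
    D l i = (D (node l r) i).filter (fun p => p.2 ≤ i + size l + 1) := by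
  ext p
  rw [Finset.mem_filter, mem_D_node]
  constructor
  · intro h
    exact ⟨Or.inr (Or.inl h), (D_bounds _ _ _ h).2.2⟩
  · rintro ⟨rfl | h | h, h2⟩
    · simp only at h2; omega
    · exact h
    · have := D_bounds _ _ _ h
      omega

theorem D_right_eq {l r : BT} {i : ℕ} :
    D r (i + size l + 1) = (D (node l r) i).filter (fun p => i + size l + 1 ≤ p.1) := by
  ext p
  rw [Finset.mem_filter, mem_D_node]
  constructor
  · intro h
    exact ⟨Or.inr (Or.inr h), (D_bounds _ _ _ h).1⟩
  · rintro ⟨rfl | h | h, h2⟩
    · simp only at h2; omega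
    · have := D_bounds _ _ _ h
      omega
    · exact h

theorem D_inj : ∀ (s t : BT) (i : ℕ), size s = size t → D s i = D t i → s = t
  | leaf, leaf, _, _, _ => rfl
  | leaf, node _ _, _, h, _ => by simp [size] at h
  | node _ _, leaf, _, h, _ => by simp [size] at h
  | node l r, node l' r', i, hs, h => by
      have h1 := size_le_of_D_eq hs h.ge
      have h2 := size_le_of_D_eq hs.symm h.le
      have hl : size l = size l' := le_antisymm h2 h1
      have hr : size r = size r' := by
        simp only [size] at hs
        omega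
      have hL : D l i = D l' i := by
        rw [D_left_eq (l := l) (r := r), D_left_eq (l := l') (r := r'), h, hl]
      have hR : D r (i + size l + 1) = D r' (i + size l + 1) := by
        rw [D_right_eq (l := l) (r := r), h]
        conv_rhs => rw [hl]
        rw [D_right_eq (l := l') (r := r'), hl]
      rw [D_inj l l' i hl hL, D_inj r r' _ hr hR]

/-- a weight that decreases under right rotations -/
def wt : BT → ℕ
  | leaf => 0
  | node l r => size l + wt l + wt r

theorem Rot.wt_lt {s t : BT} (h : Rot s t) : wt t < wt s := by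
  induction h with
  | base a b c => simp only [wt, size]; omega
  | left r h ih =>
      have := h.size_eq
      simp only [wt]; omega
  | right l _ ih => simp only [wt]; omega

theorem Rot.ne {s t : BT} (h : Rot s t) : s ≠ t := by
  rintro rfl
  exact lt_irrefl _ h.wt_lt

theorem Rot.flip {s t : BT} (h : Rot s t) : ∀ i : ℕ, ∃ p q F, D s i = insert p F ∧
    D t i = insert q F ∧ (i, i + size s + 1) ∈ F := by
  induction h with
  | base a b c =>
      intro i
      refine ⟨(i, i + size a + size b + 2), (i + size a + 1, i + size a + size b + size c + 3),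
        insert (i, i + size a + size b + size c + 3)
          (D a i ∪ (D b (i + size a + 1) ∪ D c (i + size a + size b + 2))), ?_, ?_, ?_⟩
      · simp only [D, size]
        have h1 : i + (size a + size b + 1) + size c + 2 = i + size a + size b + size c + 3 := by
          omega
        have h2 : i + (size a + size b + 1) + 1 = i + size a + size b + 2 := by omega
        rw [h1, h2, Finset.insert_union, Finset.insert_comm, Finset.union_assoc]
      · simp only [D, size]
        have h1 : i + size a + (size b + size c + 1) + 2 = i + size a + size b + size c + 3 := by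
          omega
        have h2 : i + size a + 1 + size b + size c + 2 = i + size a + size b + size c + 3 := by
          omega
        have h3 : i + size a + 1 + size b + 1 = i + size a + size b + 2 := by omega
        rw [h1, h2, h3, Finset.union_insert, Finset.insert_comm]
      · simp only [size, Finset.mem_insert, Prod.mk.injEq, true_and]
        left
        omega
  | @left l l' r h ih =>
      intro i
      obtain ⟨p, q, F, h1, h2, h3⟩ := ih i
      refine ⟨p, q, insert (i, i + size l + size r + 2) (F ∪ D r (i + size l + 1)), ?_, ?_, ?_⟩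
      · rw [D, h1, Finset.insert_union, Finset.insert_comm]
      · rw [D, ← h.size_eq, h2, Finset.insert_union, Finset.insert_comm]
      · simp only [size, Finset.mem_insert, Prod.mk.injEq, true_and]
        left
        omega
  | @right l r r' h ih =>
      intro i
      obtain ⟨p, q, F, h1, h2, h3⟩ := ih (i + size l + 1)
      refine ⟨p, q, insert (i, i + size l + size r + 2) (D l i ∪ F), ?_, ?_, ?_⟩
      · rw [D, h1, Finset.union_insert, Finset.insert_comm]
      · rw [D, ← h.size_eq, h2, Finset.union_insert, Finset.insert_comm]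
      · simp only [size, Finset.mem_insert, Prod.mk.injEq, true_and]
        left
        omega

/-- the set of diagonals of a tree -/
def T (t : BT) : Finset (ℕ × ℕ) := (D t 0).erase (0, size t + 1)

theorem T_noncross {n : ℕ} {t : BT} (hs : size t = n) : NonCrossing (n + 2) (T t) := by
  constructor
  · intro p hp
    rw [T, Finset.mem_erase] at hp
    have hb := D_bounds _ _ _ hp.2
    refine ⟨hb.2.1, by omega, ?_⟩
    rintro ⟨h1, h2⟩
    apply hp.1
    obtain ⟨x, y⟩ := p
    simp only at h1 h2
    rw [Prod.mk.injEq]
    exact ⟨h1, by omega⟩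
  · intro p hp q hq
    rw [T, Finset.mem_erase] at hp hq
    exact D_noncross t 0 p q hp.2 hq.2

theorem root_mem {n : ℕ} (hn : 1 ≤ n) {t : BT} (hs : size t = n) : (0, size t + 1) ∈ D t 0 := by
  cases t with
  | leaf => simp [size] at hs; omega
  | node l r => simpa using D_root (l := l) (r := r) (i := 0)

theorem card_T {n : ℕ} (hn : 1 ≤ n) {t : BT} (hs : size t = n) : (T t).card = n - 1 := by
  rw [T, Finset.card_erase_of_mem (root_mem hn hs), card_D, hs]

theorem T_covers {n : ℕ} {M : Finset (ℕ × ℕ)} (hM : NonCrossing (n + 2) M) :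
    ∃ t, size t = n ∧ M ⊆ T t := by
  obtain ⟨t, ht, hsub⟩ := D_covers n 0 M (by
    intro p hp
    have := hM.1 p hp
    simp only [IsDiag] at this
    omega) hM.2
  refine ⟨t, ht, ?_⟩
  intro p hp
  rw [T, Finset.mem_erase]
  refine ⟨?_, hsub hp⟩
  rintro rfl
  have := (hM.1 _ hp).2.2
  simp only [ht] at this
  exact this ⟨trivial, trivial⟩

theorem T_maximal {n : ℕ} (hn : 1 ≤ n) {t : BT} (hs : size t = n) :
    Maximal (NonCrossing (n + 2)) (T t) := by
  refine ⟨T_noncross hs, ?_⟩
  intro M hM hsub
  obtain ⟨t', ht', hM'⟩ := T_covers hM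
  have h1 : T t = T t' := by
    refine Finset.eq_of_subset_of_card_le (hsub.trans hM') ?_
    rw [card_T hn hs, card_T hn ht']
  rw [h1]
  exact hM'

theorem T_inj {n : ℕ} (hn : 1 ≤ n) {s t : BT} (hs : size s = n) (ht : size t = n)
    (h : T s = T t) : s = t := by
  refine D_inj s t 0 (by rw [hs, ht]) ?_
  rw [← Finset.insert_erase (root_mem hn hs), ← Finset.insert_erase (root_mem hn ht)]
  have h' : (D s 0).erase (0, size s + 1) = (D t 0).erase (0, size t + 1) := h
  rw [h', hs, ht]

/-- the triangulation of a tree -/
def toTri {n : ℕ} (hn : 1 ≤ n) (t : {t : BT // size t = n}) : Triangulation (n + 2) :=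
  ⟨T t.1, T_maximal hn t.2⟩

theorem toTri_bijective {n : ℕ} (hn : 1 ≤ n) : Function.Bijective (toTri hn) := by
  constructor
  · rintro ⟨s, hs⟩ ⟨t, ht⟩ h
    have h' : T s = T t := congrArg Subtype.val h
    exact Subtype.ext (T_inj hn hs ht h')
  · rintro ⟨M, hM⟩
    obtain ⟨t, ht, hsub⟩ := T_covers hM.1
    refine ⟨⟨t, ht⟩, Subtype.ext ?_⟩
    exact (hM.2 (T_noncross ht) hsub).antisymm hsub

theorem Rot.flipAdj {n : ℕ} (hn : 1 ≤ n) {s t : BT} (hs : size s = n) (ht : size t = n)
    (h : Rot s t) : (flipGraph (n + 2)).Adj (toTri hn ⟨s, hs⟩) (toTri hn ⟨t, ht⟩) := by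
  obtain ⟨p, q, F, h1, h2, h3⟩ := h.flip 0
  rw [Nat.zero_add] at h3
  have hDne : D s 0 ≠ D t 0 := fun h' => h.ne (D_inj s t 0 h.size_eq h')
  have hcs := card_D s 0
  have hct := card_D t 0
  have hp : p ∉ F := by
    intro hp
    rw [Finset.insert_eq_of_mem hp] at h1
    apply hDne
    refine Finset.eq_of_subset_of_card_le ?_ (by rw [hcs, hct, hs, ht])
    rw [h1, h2]
    exact Finset.subset_insert _ _
  have hq : q ∉ F := by
    intro hq
    rw [Finset.insert_eq_of_mem hq] at h2
    apply hDne
    refine (Finset.eq_of_subset_of_card_le ?_ (by rw [hcs, hct, hs, ht])).symm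
    rw [h1, h2]
    exact Finset.subset_insert _ _
  have hpq : p ≠ q := by
    rintro rfl
    exact hDne (by rw [h1, h2])
  have hproot : p ≠ (0, size s + 1) := by
    rintro rfl
    exact hp h3
  have hqroot : q ≠ (0, size s + 1) := by
    rintro rfl
    exact hq h3
  have hTs : T s = insert p (F.erase (0, size s + 1)) := by
    rw [T, h1, Finset.erase_insert_of_ne hproot]
  have hTt : T t = insert q (F.erase (0, size s + 1)) := by
    rw [T, h2, ← h.size_eq, Finset.erase_insert_of_ne hqroot]
  have hpF : p ∉ F.erase (0, size s + 1) := fun h' => hp (Finset.mem_of_mem_erase h')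
  have hqF : q ∉ F.erase (0, size s + 1) := fun h' => hq (Finset.mem_of_mem_erase h')
  refine ⟨p, ?_, q, ?_, ?_⟩
  · show p ∈ T s
    rw [hTs]
    exact Finset.mem_insert_self _ _
  · show q ∉ T s
    rw [hTs, Finset.mem_insert]
    rintro (h' | h')
    · exact hpq h'.symm
    · exact hqF h'
  · show T t = insert q ((T s).erase p)
    rw [hTs, hTt, Finset.erase_insert hpF]

theorem Adj.flipAdj {n : ℕ} (hn : 1 ≤ n) {s t : BT} (hs : size s = n) (ht : size t = n)
    (h : Adj s t) : (flipGraph (n + 2)).Adj (toTri hn ⟨s, hs⟩) (toTri hn ⟨t, ht⟩) := by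
  rcases h with h | h
  · exact h.flipAdj hn hs ht
  · exact (h.flipAdj hn ht hs).symm

end BT

end Pool.Agent.MPfb8c36
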