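import Pool.Agent.Lib.MP_fb8c36_co.Base

/-!
# The cycle spectrum of the rotation graph
-/

namespace Pool.Agent.MPfb8c36

namespace BT

theorem Inv.step_odd {n : ℕ} {X : BT} {H : List BT} (hI : Inv n X H) {k : ℕ}
    (hk : H.length + 1 = 2 * (k + 1)) :
    ∃ X' H', Inv (n + 1) X' H' ∧
      (∀ L, ([E X 0, E X 1, E X 2, E X 3] ++ H).length + 2 ≤ L →
        L ≤ ([E X' 0, E X' 1, E X' 2, E X' 3] ++ H').length → CL (n + 1) L) ∧
      Sp (n + 1) (([E X' 0, E X' 1, E X' 2, E X' 3] ++ H').length - 1) := by
  have hspine := hI.hsp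
  have hcols : (List.range (2 + 1)).map (E X) ++ (E X 3 :: H) =
    [E X 0, E X 1, E X 2, E X 3] ++ H := rfl
  have hHne : H ≠ [] := by
    rintro rfl
    have := hI.len
    simp at this
  obtain ⟨z, hz⟩ : ∃ z, H.getLast? = some z := ⟨H.getLast hHne, List.getLast?_eq_some_getLast hHne⟩
  have hz' : (E X 3 :: H).getLast? = some z := by
    rw [List.getLast?_cons, hz]; rfl
  have hzX : Adj z (E X 0) := by
    refine hI.cyc.close z ?_ (E X 0) (by simp)
    rw [List.getLast?_append, hz]; rfl
  obtain ⟨M, F, h1, h2, ⟨q, hFq⟩, h3, h4⟩ := combine (X := X) (R := E X 3 :: H) (n := n)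
    (by omega) g3_good
    (by norm_num) (by norm_num) (by rw [hcols]; exact hI.cyc.chain)
    (by rw [hcols]; exact hI.cyc.nodup)
    (by intro x hx; rw [hcols] at hx; exact (hI.mem x).1 hx) (by simpa using hk) rfl hz' hzX
  have hfull : Full ([E X 0, E X 1, E X 2, E X 3] ++ H) ((g3 9).map (G X) ++ F) := by
    rw [← hcols]
    exact (gadget_full (by omega) g3_full).append h2
  have hs4 : spine (E X 3) = 4 := spine_E X 3 (by omega)
  rw [hs4] at hFq
  subst hFq
  obtain ⟨hc9, hs9⟩ := h3 9 (by norm_num) (by norm_num)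
  obtain ⟨hc8, hs8⟩ := h3 8 (by norm_num) (by norm_num)
  have hsplit9 : (g3 9).map (G X) ++ (up (E X 3) 4 ++ q) =
      (g3 9).map (G X) ++
      ([E (E X 3) 0, E (E X 3) 1, E (E X 3) 2, E (E X 3) 3] ++ (E (E X 3) 4 :: q)) := rfl
  have hsplit8 : (g3 8).map (G X) ++ (up (E X 3) 4 ++ q) =
      [G X (0,0), G X (1,0), G X (1,1), G X (1,2)] ++
      ([G X (2,3), G X (2,2), G X (2,1), G X (2,0)] ++ (up (E X 3) 4 ++ q)) := rfl
  have hlen9 : ((g3 9).map (G X) ++ (up (E X 3) 4 ++ q)).length = 9 + M := by
    rw [List.length_append, List.length_map, h1]; rfl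
  have hlen9' := hlen9
  rw [hsplit9] at hlen9'
  have hg9 : (g3 9).length = 9 := rfl
  simp only [List.length_append, List.length_map, List.length_cons, List.length_nil, hg9]
    at hlen9'
  refine ⟨E X 3, (E (E X 3) 4 :: q) ++ (g3 9).map (G X), ⟨?_, ?_, ?_, ?_⟩, ?_, ?_⟩
  · rw [hs4]; norm_num
  · rw [hsplit9] at hc9
    have := hc9.rotate
    simpa only [List.append_assoc] using this
  · intro x
    have hperm : x ∈ [E (E X 3) 0, E (E X 3) 1, E (E X 3) 2, E (E X 3) 3] ++
        ((E (E X 3) 4 :: q) ++ (g3 9).map (G X)) ↔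
        x ∈ (g3 9).map (G X) ++ (up (E X 3) 4 ++ q) := by
      rw [hsplit9]
      simp only [List.mem_append]
      tauto
    rw [hperm]
    exact ⟨hs9 x, fun hx => mem_of_full hI hfull hx⟩
  · simp only [List.length_append, List.length_cons, List.length_map, hg9]
    omega
  · intro L hL1 hL2
    refine h4 L ?_ ?_
    · simp only [List.length_append, List.length_cons, List.length_nil] at hL1 ⊢
      omega
    · simp only [List.length_append, List.length_cons, List.length_nil, List.length_map, hg9]
        at hL2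
      omega
  · rw [hsplit8] at hc8
    have hrot := hc8.rotate
    refine ⟨G X (2,3), G X (2,2), [G X (2,1), G X (2,0)] ++ (up (E X 3) 4 ++ q) ++
      [G X (0,0), G X (1,0), G X (1,1), G X (1,2)], ?_, ?_, ?_, ?_, ?_, ?_⟩
    · simpa only [List.append_assoc, List.cons_append, List.nil_append] using hrot
    · simp only [List.length_append, List.length_cons, List.length_nil, length_up,
        List.length_map, hg9]
      omega
    · intro x hx
      refine hs8 x ?_
      rw [hsplit8]
      simp only [List.mem_append, List.mem_cons, List.cons_append] at hx ⊢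
      tauto
    · exact (cross_one (E X 2) 1 (by rw [spine_E X 2 (by omega)])).symm
    · rw [G, spine_E _ _ (by rw [spine_E X 2 (by omega)])]
      norm_num
    · rw [G, spine_E _ _ (by rw [spine_E X 2 (by omega)]; norm_num)]
      norm_num

theorem Inv.step {n : ℕ} {X : BT} {H : List BT} (hI : Inv n X H) :
    ∃ X' H', Inv (n + 1) X' H' ∧
      (∀ L, ([E X 0, E X 1, E X 2, E X 3] ++ H).length + 2 ≤ L →
        L ≤ ([E X' 0, E X' 1, E X' 2, E X' 3] ++ H').length → CL (n + 1) L) ∧
      Sp (n + 1) (([E X' 0, E X' 1, E X' 2, E X' 3] ++ H').length - 1) := by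
  have h2 := hI.len
  rcases Nat.even_or_odd' H.length with ⟨j, hj | hj⟩
  · exact hI.step_even (k := j - 1) (by omega)
  · exact hI.step_odd (k := j) (by omega)

theorem E0_injective : Function.Injective (fun t => E t 0) := by
  intro s t h
  simpa using h

theorem IsCyc.lift {p : List BT} (h : IsCyc p) : IsCyc (p.map (fun t => E t 0)) := by
  refine ⟨h.nodup.map E0_injective, by rw [List.length_map]; exact h.len, ?_, ?_⟩
  · rw [List.isChain_map]
    exact h.chain.imp fun a b hab => (cr_zero hab).2.2
  · intro z hz a ha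
    rw [Option.mem_def, List.getLast?_map, Option.map_eq_some_iff] at hz
    rw [Option.mem_def, List.head?_map, Option.map_eq_some_iff] at ha
    obtain ⟨z', hz', rfl⟩ := hz
    obtain ⟨a', ha', rfl⟩ := ha
    exact (cr_zero (h.close z' hz' a' ha')).2.2

theorem CL.lift {n L : ℕ} (h : CL n L) : CL (n + 1) L := by
  obtain ⟨p, hp, hl, hs⟩ := h
  refine ⟨_, hp.lift, by rw [List.length_map]; exact hl, ?_⟩
  intro x hx
  obtain ⟨t, ht, rfl⟩ := List.mem_map.1 hx
  rw [size_E t 0 (Nat.zero_le _), hs t ht]

theorem Sp.lift {n L : ℕ} (h : Sp n L) : CL (n + 1) (L + 2) := by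
  obtain ⟨t, t', p, hp, hl, hs, h11, hst, hst'⟩ := h
  have hp' := hp.lift
  have htt' : Adj t t' := (List.isChain_cons_cons.1 hp.chain).1
  have hne1 : ∀ x ∈ t :: t' :: p, ∀ y, 1 ≤ spine y → E y 1 ≠ E x 0 := by
    intro x _ y hy h
    have := congrArg spine h
    rw [spine_E y 1 hy, spine_E x 0 (Nat.zero_le _)] at this
    omega
  have htne : t ≠ t' := by
    rintro rfl
    have := hp.nodup
    simp at this
  have h1ne : E t 1 ≠ E t' 1 := by
    intro h
    have := congrArg par h
    rw [par_E t 1 hst, par_E t' 1 hst'] at this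
    exact htne this
  -- the list  E t 1 :: E t' 1 :: (E t' 0 :: ...) ++ [E t 0]
  have hrot : IsCyc (((t' :: p).map (fun t => E t 0)) ++ [E t 0]) := by
    have h : IsCyc ([E t 0] ++ (t' :: p).map (fun t => E t 0)) := hp'
    exact h.rotate
  have hmem : ∀ y, y ∈ ((t' :: p).map (fun t => E t 0)) ++ [E t 0] →
      ∃ x ∈ t :: t' :: p, y = E x 0 := by
    intro y hy
    rcases List.mem_append.1 hy with h | h
    · obtain ⟨x, hx, rfl⟩ := List.mem_map.1 h
      exact ⟨x, List.mem_cons_of_mem _ hx, rfl⟩
    · rw [List.mem_singleton] at h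
      exact ⟨t, by simp, h⟩
  refine ⟨E t 1 :: E t' 1 :: (((t' :: p).map (fun t => E t 0)) ++ [E t 0]), ⟨?_, ?_, ?_, ?_⟩,
    ?_, ?_⟩
  · refine List.nodup_cons.2 ⟨?_, List.nodup_cons.2 ⟨?_, hrot.nodup⟩⟩
    · intro hm
      rcases List.mem_cons.1 hm with h | h
      · exact h1ne h
      · obtain ⟨x, hx, he⟩ := hmem _ h
        exact hne1 x hx t hst he
    · intro hm
      obtain ⟨x, hx, he⟩ := hmem _ hm
      exact hne1 x hx t' hst' he
  · simp
  · refine List.isChain_cons_cons.2 ⟨h11, List.IsChain.cons hrot.chain ?_⟩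
    intro y hy
    simp only [List.map_cons, List.cons_append, List.head?_cons, Option.mem_def,
      Option.some.injEq] at hy
    subst hy
    exact (adj_E_succ t' 0 hst').symm
  · intro z hz a ha
    simp only [List.head?_cons, Option.mem_def, Option.some.injEq] at ha
    subst ha
    have hz' : z = E t 0 := by
      rw [show E t 1 :: E t' 1 :: (((t' :: p).map (fun t => E t 0)) ++ [E t 0]) =
        (E t 1 :: E t' 1 :: ((t' :: p).map (fun t => E t 0))) ++ [E t 0] from rfl,
        List.getLast?_append] at hz
      simpa using hz.symm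
    subst hz'
    exact adj_E_succ t 0 hst
  · simp only [List.length_cons, List.length_append, List.length_map, List.length_nil] at hl ⊢
    omega
  · intro x hx
    rcases List.mem_cons.1 hx with h | h
    · rw [h, size_E t 1 hst, hs t (by simp)]
    rcases List.mem_cons.1 h with h | h
    · rw [h, size_E t' 1 hst', hs t' (by simp)]
    · obtain ⟨y, hy, rfl⟩ := hmem x h
      rw [size_E y 0 (Nat.zero_le _), hs y hy]

/-- the number of trees of size `n`, as the length of the list `allT n` is not needed; we package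
the statement of the main theorem on the tree side -/
theorem spectrum_aux : ∀ n : ℕ, ∃ X H, Inv (n + 5) X H ∧
    (∀ L, 4 ≤ L → L ≤ ([E X 0, E X 1, E X 2, E X 3] ++ H).length → CL (n + 5) L) ∧
    Sp (n + 5) (([E X 0, E X 1, E X 2, E X 3] ++ H).length - 1)
  | 0 => by
      refine ⟨node leaf (node leaf (node leaf (node leaf leaf))), H5.drop 4, ?_, ?_, ?_⟩
      · refine ⟨by simp [spine], ?_, ?_, by decide +kernel⟩
        · exact H5_cyc
        · exact H5_mem
      · intro L h1 h2
        refine CL5 L h1 (h2.trans (le_of_eq ?_))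
        decide +kernel
      · have hsplit : cyc41 = node leaf (node (node (node leaf leaf) leaf) (node leaf leaf)) ::
            node leaf (node (node leaf leaf) (node leaf (node leaf leaf))) :: cyc41.drop 2 := rfl
        have hlen : ([E (node leaf (node leaf (node leaf (node leaf leaf)))) 0,
          E (node leaf (node leaf (node leaf (node leaf leaf)))) 1,
          E (node leaf (node leaf (node leaf (node leaf leaf)))) 2,
          E (node leaf (node leaf (node leaf (node leaf leaf)))) 3] ++ H5.drop 4).length - 1 = 41 :=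
          rfl
        rw [hlen]
        refine ⟨node leaf (node (node (node leaf leaf) leaf) (node leaf leaf)),
          node leaf (node (node leaf leaf) (node leaf (node leaf leaf))), cyc41.drop 2,
          cyc41_cyc, rfl, ?_, ?_, by simp [spine], by simp [spine]⟩
        · intro x hx
          rw [← hsplit] at hx
          rw [← H5_mem]
          simp only [cyc41, List.mem_append, List.mem_reverse] at hx
          rcases hx with hx | hx | hx
          · exact List.mem_of_mem_drop (List.mem_of_mem_take hx)
          · exact List.mem_of_mem_take hx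
          · exact List.mem_of_mem_drop hx
        · exact adjb_adj (by decide +kernel)
  | n + 1 => by
      obtain ⟨X, H, hI, hC, hS⟩ := spectrum_aux n
      obtain ⟨X', H', hI', hC', hS'⟩ := hI.step
      have h : n + 1 + 5 = n + 5 + 1 := by omega
      rw [h]
      refine ⟨X', H', hI', ?_, hS'⟩
      intro L h1 h2
      by_cases hL : L ≤ ([E X 0, E X 1, E X 2, E X 3] ++ H).length
      · exact (hC L h1 hL).lift
      by_cases hL2 : L = ([E X 0, E X 1, E X 2, E X 3] ++ H).length + 1
      · have h3 := hS.lift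
        have h4 : ([E X 0, E X 1, E X 2, E X 3] ++ H).length - 1 + 2 = L := by
          simp only [List.length_append, List.length_cons, List.length_nil] at hL2 ⊢
          omega
        rwa [h4] at h3
      · exact hC' L (by omega) h2

/-- the right comb -/
def comb : ℕ → BT
  | 0 => leaf
  | n + 1 => node leaf (comb n)

theorem size_comb : ∀ n, size (comb n) = n
  | 0 => rfl
  | n + 1 => by simp [comb, size, size_comb n]

theorem spine_comb : ∀ n, spine (comb n) = n
  | 0 => rfl
  | n + 1 => by simp [comb, spine, spine_comb n]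

/-- **Main theorem, tree side.** -/
theorem spectrum (n : ℕ) (hn : 5 ≤ n) : ∃ l : List BT, l.Nodup ∧ (∀ x, x ∈ l ↔ size x = n) ∧
    n ≤ l.length ∧ ∀ L, 4 ≤ L → L ≤ l.length → CL n L := by
  obtain ⟨m, rfl⟩ : ∃ m, n = m + 5 := ⟨n - 5, by omega⟩
  obtain ⟨X, H, hI, hC, -⟩ := spectrum_aux m
  refine ⟨_, hI.cyc.nodup, hI.mem, ?_, hC⟩
  have hup := up_pth (comb (m + 4)) (m + 4) (by rw [spine_comb])
  have hsub : up (comb (m + 4)) (m + 4) ⊆ [E X 0, E X 1, E X 2, E X 3] ++ H := by
    intro x hx
    rw [hI.mem]
    refine hup.size_eq ?_ x hx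
    intro y hy
    rw [List.mem_singleton] at hy
    rw [hy, size_comb]
  have := (List.subperm_of_subset hup.nodup hsub).length_le
  rwa [length_up] at this

end BT

end Pool.Agent.MPfb8c36
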