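import Mathlib

/-!
# Binary trees, rotations and the fibres of the map that removes the last leaf
-/

namespace Pool.Agent.MPfb8c36

/-- Plane binary trees. -/
inductive BT : Type
  | leaf : BT
  | node : BT → BT → BT
  deriving DecidableEq

namespace BT

/-- number of inner nodes -/
def size : BT → ℕ
  | leaf => 0
  | node l r => size l + size r + 1

/-- length of the right spine -/
def spine : BT → ℕ
  | leaf => 0
  | node _ r => spine r + 1

/-- the `i`-th child (`i ≤ spine t`) -/
def E : BT → ℕ → BT
  | t, 0 => node t leaf
  | leaf, _ + 1 => leaf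
  | node l r, i + 1 => node l (E r i)

/-- the parent -/
def par : BT → BT
  | leaf => leaf
  | node l leaf => l
  | node l (node a b) => node l (par (node a b))

/-- right rotation -/
inductive Rot : BT → BT → Prop
  | base (a b c : BT) : Rot (node (node a b) c) (node a (node b c))
  | left {l l' : BT} (r : BT) : Rot l l' → Rot (node l r) (node l' r)
  | right (l : BT) {r r' : BT} : Rot r r' → Rot (node l r) (node l r')

/-- adjacency in the rotation graph -/
def Adj (s t : BT) : Prop := Rot s t ∨ Rot t s

theorem Adj.symm {s t : BT} (h : Adj s t) : Adj t s := Or.symm h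

theorem Adj.left {l l' : BT} (r : BT) (h : Adj l l') : Adj (node l r) (node l' r) :=
  h.imp (Rot.left r) (Rot.left r)

theorem Adj.right (l : BT) {r r' : BT} (h : Adj r r') : Adj (node l r) (node l r') :=
  h.imp (Rot.right l) (Rot.right l)

theorem Rot.size_eq {s t : BT} (h : Rot s t) : size s = size t := by
  induction h with
  | base a b c => simp [size]; omega
  | left r _ ih => simp [size, ih]
  | right l _ ih => simp [size, ih]

theorem Adj.size_eq {s t : BT} (h : Adj s t) : size s = size t := by
  rcases h with h | h
  · exact h.size_eq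
  · exact h.size_eq.symm

@[simp] theorem E_zero (t : BT) : E t 0 = node t leaf := by
  cases t <;> rfl

@[simp] theorem E_node_succ (l r : BT) (i : ℕ) : E (node l r) (i + 1) = node l (E r i) := rfl

theorem E_ne_leaf : ∀ (t : BT) (i : ℕ), i ≤ spine t → E t i ≠ leaf
  | t, 0, _ => by simp
  | leaf, i + 1, h => by simp [spine] at h
  | node l r, i + 1, _ => by simp

theorem par_node_of_ne (l : BT) {r : BT} (h : r ≠ leaf) : par (node l r) = node l (par r) := by
  cases r with
  | leaf => exact absurd rfl h
  | node a b => rfl

theorem par_E : ∀ (t : BT) (i : ℕ), i ≤ spine t → par (E t i) = t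
  | t, 0, _ => by simp [par]
  | leaf, i + 1, h => by simp [spine] at h
  | node l r, i + 1, h => by
      have h' : i ≤ spine r := by simpa [spine] using h
      rw [E_node_succ, par_node_of_ne l (E_ne_leaf r i h'), par_E r i h']

theorem spine_E : ∀ (t : BT) (i : ℕ), i ≤ spine t → spine (E t i) = i + 1
  | t, 0, _ => by simp [spine]
  | leaf, i + 1, h => by simp [spine] at h
  | node l r, i + 1, h => by
      have h' : i ≤ spine r := by simpa [spine] using h
      simp [spine, spine_E r i h']

theorem size_E : ∀ (t : BT) (i : ℕ), i ≤ spine t → size (E t i) = size t + 1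
  | t, 0, _ => by simp [size]
  | leaf, i + 1, h => by simp [spine] at h
  | node l r, i + 1, h => by
      have h' : i ≤ spine r := by simpa [spine] using h
      simp [size, size_E r i h']
      omega

/-- every tree different from the leaf is a child of its parent -/
theorem eq_E : ∀ (y : BT), y ≠ leaf →
    ∃ i, i ≤ spine (par y) ∧ y = E (par y) i
  | leaf, h => absurd rfl h
  | node l leaf, _ => ⟨0, by simp, by simp [par]⟩
  | node l (node a b), _ => by
      obtain ⟨i, hi, he⟩ := eq_E (node a b) (by simp)
      refine ⟨i + 1, ?_, ?_⟩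
      · simpa [par, spine] using hi
      · rw [par, E_node_succ, ← he]

theorem size_par {y : BT} (h : y ≠ leaf) : size y = size (par y) + 1 := by
  obtain ⟨i, hi, he⟩ := eq_E y h
  conv_lhs => rw [he]
  exact size_E _ _ hi

theorem E_inj {t : BT} {i j : ℕ} (hi : i ≤ spine t) (hj : j ≤ spine t) (h : E t i = E t j) :
    i = j := by
  have := congrArg spine h
  rw [spine_E t i hi, spine_E t j hj] at this
  omega

/-- consecutive children are adjacent -/
theorem adj_E_succ : ∀ (t : BT) (i : ℕ), i + 1 ≤ spine t → Adj (E t i) (E t (i + 1))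
  | leaf, i, h => by simp [spine] at h
  | node l r, 0, _ => by
      simp only [E_zero, E_node_succ]
      exact Or.inl (Rot.base l r leaf)
  | node l r, i + 1, h => by
      have h' : i + 1 ≤ spine r := by simpa [spine] using h
      simp only [E_node_succ]
      exact (adj_E_succ r i h').right l

/-- the crossing between two fibres at positions `i`, `j` -/
def Cr (t t' : BT) (i j : ℕ) : Prop := i ≤ spine t ∧ j ≤ spine t' ∧ Adj (E t i) (E t' j)

theorem Cr.symm {t t' : BT} {i j : ℕ} (h : Cr t t' i j) : Cr t' t j i :=
  ⟨h.2.1, h.1, h.2.2.symm⟩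

theorem cr_zero {t t' : BT} (h : Adj t t') : Cr t t' 0 0 := by
  refine ⟨Nat.zero_le _, Nat.zero_le _, ?_⟩
  simpa using h.left leaf

theorem cr_base (a b c : BT) {i : ℕ} (hi : i ≤ spine c) :
    Cr (node (node a b) c) (node a (node b c)) (i + 1) (i + 2) := by
  refine ⟨by simp [spine]; omega, by simp [spine]; omega, ?_⟩
  simp only [E_node_succ]
  exact Or.inl (Rot.base a b (E c i))

theorem cr_left {l l' : BT} (r : BT) (h : Adj l l') {i : ℕ} (hi : i ≤ spine r + 1) :
    Cr (node l r) (node l' r) i i := by
  refine ⟨by simp [spine]; omega, by simp [spine]; omega, ?_⟩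
  cases i with
  | zero => simpa using (h.left r).left leaf
  | succ i =>
      simp only [E_node_succ]
      exact h.left _

theorem cr_right (l : BT) {r r' : BT} {i j : ℕ} (h : Cr r r' i j) :
    Cr (node l r) (node l r') (i + 1) (j + 1) := by
  refine ⟨by simpa [spine] using h.1, by simpa [spine] using h.2.1, ?_⟩
  simp only [E_node_succ]
  exact h.2.2.right l

theorem Rot.cr_top {t t' : BT} (h : Rot t t') : Cr t t' (spine t) (spine t') := by
  induction h with
  | base a b c => simpa [spine] using cr_base a b c (le_refl (spine c))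
  | left r h _ => simpa [spine] using cr_left r (Or.inl h) (le_refl (spine r + 1))
  | right l _ ih => simpa [spine] using cr_right l ih

theorem Adj.cr_top {t t' : BT} (h : Adj t t') : Cr t t' (spine t) (spine t') := by
  rcases h with h | h
  · exact h.cr_top
  · exact h.cr_top.symm

theorem Rot.exists_cr {t t' : BT} (h : Rot t t') :
    ∀ L, L ≤ spine t + spine t' → ∃ i j, Cr t t' i j ∧ i + j ≤ L ∧ L ≤ i + j + 2 := by
  induction h with
  | base a b c =>
      intro L hL
      by_cases h3 : L < 3
      · exact ⟨0, 0, cr_zero (Or.inl (Rot.base a b c)), by omega, by omega⟩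
      · simp only [spine] at hL
        refine ⟨(L - 3) / 2 + 1, (L - 3) / 2 + 2, cr_base a b c (by omega), by omega, by omega⟩
  | @left l l' r h _ =>
      intro L hL
      simp only [spine] at hL
      exact ⟨L / 2, L / 2, cr_left r (Or.inl h) (by omega), by omega, by omega⟩
  | @right l r r' h ih =>
      intro L hL
      simp only [spine] at hL
      by_cases h2 : L < 2
      · exact ⟨0, 0, cr_zero (Or.inl (Rot.right l h)), by omega, by omega⟩
      · obtain ⟨i, j, hc, h1, h3⟩ := ih (L - 2) (by omega)
        exact ⟨i + 1, j + 1, cr_right l hc, by omega, by omega⟩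

theorem Adj.exists_cr {t t' : BT} (h : Adj t t') :
    ∀ L, L ≤ spine t + spine t' → ∃ i j, Cr t t' i j ∧ i + j ≤ L ∧ L ≤ i + j + 2 := by
  rcases h with h | h
  · exact h.exists_cr
  · intro L hL
    obtain ⟨i, j, hc, h1, h2⟩ := h.exists_cr L (by omega)
    exact ⟨j, i, hc.symm, by omega, by omega⟩

end BT

end Pool.Agent.MPfb8c36
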